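import Mathlib

/-!
Estimates for the counterexample `w = conj z + z^2 log |z|^2` (MP_4bee3f_an).
-/

set_option autoImplicit false

namespace Pool.Agent.H95R3.Ell

open Complex

/-- `f z = z^3/|z|^2 = z^2 / conj z`. -/
noncomputable def ff (z : ℂ) : ℂ := z ^ 3 / ((Complex.normSq z : ℝ) : ℂ)

/-- `g z = z^2 log |z|^2`. -/
noncomputable def gg (z : ℂ) : ℂ := z ^ 2 * ((Real.log (Complex.normSq z) : ℝ) : ℂ)

/-- `φ t = t^2 (4 log t + 1)^2`. -/
noncomputable def phi (t : ℝ) : ℝ := t ^ 2 * (4 * Real.log t + 1) ^ 2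

lemma ff_zero : ff 0 = 0 := by simp [ff]
lemma gg_zero : gg 0 = 0 := by simp [gg]

lemma ff_eq (z : ℂ) (hz : z ≠ 0) : ff z = z ^ 2 / (starRingEnd ℂ z) := by
  unfold ff
  rw [Complex.normSq_eq_conj_mul_self]
  have h1 : (starRingEnd ℂ z) ≠ 0 := by
    simpa using hz
  field_simp

lemma norm_ff (z : ℂ) : ‖ff z‖ = ‖z‖ := by
  by_cases hz : z = 0
  · simp [hz, ff_zero]
  · rw [ff_eq z hz]
    rw [norm_div, norm_pow, RCLike.norm_conj]
    have : ‖z‖ ≠ 0 := by simpa using hz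
    field_simp

lemma ff_lip_aux (z w : ℂ) (hzw : ‖z‖ ≤ ‖w‖) : ‖ff z - ff w‖ ≤ 3 * ‖z - w‖ := by
  by_cases hz : z = 0
  · subst hz
    rw [ff_zero, zero_sub, norm_neg, norm_ff, zero_sub, norm_neg]
    nlinarith [norm_nonneg w]
  have hzpos : 0 < ‖z‖ := norm_pos_iff.mpr hz
  have hwpos : 0 < ‖w‖ := lt_of_lt_of_le hzpos hzw
  have hw : w ≠ 0 := norm_pos_iff.mp hwpos
  rw [ff_eq z hz, ff_eq w hw]
  have h1 : (starRingEnd ℂ z) ≠ 0 := by simpa using hz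
  have h2 : (starRingEnd ℂ w) ≠ 0 := by simpa using hw
  have hid : z ^ 2 / (starRingEnd ℂ z) - w ^ 2 / (starRingEnd ℂ w)
      = (z ^ 2 * ((starRingEnd ℂ w) - (starRingEnd ℂ z)) + (starRingEnd ℂ z) * ((z - w) * (z + w)))
        / ((starRingEnd ℂ z) * (starRingEnd ℂ w)) := by
    field_simp
    ring
  rw [hid, norm_div, norm_mul, RCLike.norm_conj, RCLike.norm_conj]
  rw [div_le_iff₀ (by positivity)]
  have hc : ‖(starRingEnd ℂ w) - (starRingEnd ℂ z)‖ = ‖z - w‖ := by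
    rw [← map_sub, RCLike.norm_conj, norm_sub_rev]
  calc ‖z ^ 2 * ((starRingEnd ℂ w) - (starRingEnd ℂ z)) + (starRingEnd ℂ z) * ((z - w) * (z + w))‖
      ≤ ‖z ^ 2 * ((starRingEnd ℂ w) - (starRingEnd ℂ z))‖ + ‖(starRingEnd ℂ z) * ((z - w) * (z + w))‖ :=
        norm_add_le _ _
    _ = ‖z‖ ^ 2 * ‖z - w‖ + ‖z‖ * (‖z - w‖ * ‖z + w‖) := by
        rw [norm_mul, norm_mul, norm_mul, norm_pow, hc, RCLike.norm_conj]
    _ ≤ ‖z‖ * ‖w‖ * ‖z - w‖ + ‖z‖ * (‖z - w‖ * (2 * ‖w‖)) := by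
        have h3 : ‖z + w‖ ≤ 2 * ‖w‖ := by
          calc ‖z + w‖ ≤ ‖z‖ + ‖w‖ := norm_add_le _ _
            _ ≤ 2 * ‖w‖ := by linarith
        have h4 : ‖z‖ ^ 2 * ‖z - w‖ ≤ ‖z‖ * ‖w‖ * ‖z - w‖ := by
          have : ‖z‖ ^ 2 ≤ ‖z‖ * ‖w‖ := by nlinarith
          exact mul_le_mul_of_nonneg_right this (norm_nonneg _)
        have h5 : ‖z‖ * (‖z - w‖ * ‖z + w‖) ≤ ‖z‖ * (‖z - w‖ * (2 * ‖w‖)) := by
          gcongr
        linarith
    _ = 3 * ‖z - w‖ * (‖z‖ * ‖w‖) := by ring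

lemma ff_lip (z w : ℂ) : ‖ff z - ff w‖ ≤ 3 * ‖z - w‖ := by
  rcases le_total ‖z‖ ‖w‖ with h | h
  · exact ff_lip_aux z w h
  · rw [norm_sub_rev, norm_sub_rev z w]
    exact ff_lip_aux w z h

lemma sqrt_log_bound (t : ℝ) (h0 : 0 < t) (h1 : t ≤ 1) : |Real.log t| * √t ≤ 2 := by
  have hs0 : 0 < √t := Real.sqrt_pos.mpr h0
  have hlog : Real.log t = 2 * Real.log (√t) := by
    conv_lhs => rw [← Real.sq_sqrt h0.le]
    rw [Real.log_pow]; norm_num
  have hle : Real.log t ≤ 0 := Real.log_nonpos h0.le h1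
  rw [abs_of_nonpos hle, hlog]
  have h2 := Real.one_sub_inv_le_log_of_pos hs0
  have h3 : (1 - (√t)⁻¹) * √t ≤ Real.log (√t) * √t := mul_le_mul_of_nonneg_right h2 hs0.le
  have h4 : (1 - (√t)⁻¹) * √t = √t - 1 := by
    field_simp
  nlinarith

lemma t_log_bound (t : ℝ) (h0 : 0 < t) (h1 : t ≤ 1) : t * |Real.log t| ≤ 2 * √t := by
  have h := sqrt_log_bound t h0 h1
  have hs0 : 0 < √t := Real.sqrt_pos.mpr h0
  have hm : √t * √t = t := Real.mul_self_sqrt h0.le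
  have : t * |Real.log t| = √t * (|Real.log t| * √t) := by
    calc t * |Real.log t| = (√t * √t) * |Real.log t| := by rw [hm]
      _ = √t * (|Real.log t| * √t) := by ring
  rw [this]
  nlinarith

lemma sqrt_le_one' (t : ℝ) (h1 : t ≤ 1) : √t ≤ 1 := by
  rw [show (1:ℝ) = √1 by simp]
  exact Real.sqrt_le_sqrt h1

lemma t_log_bound' (t : ℝ) (h0 : 0 < t) (h1 : t ≤ 1) : t * |Real.log t| ≤ 2 := by
  have h := t_log_bound t h0 h1
  have := sqrt_le_one' t h1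
  linarith

/-- key estimate `a (log b - log a) ≤ b - a`. -/
lemma mul_log_sub (a b : ℝ) (ha : 0 < a) (hab : a ≤ b) :
    a * (Real.log b - Real.log a) ≤ b - a := by
  have hb : 0 < b := lt_of_lt_of_le ha hab
  rw [← Real.log_div hb.ne' ha.ne']
  have h := Real.log_le_sub_one_of_pos (div_pos hb ha)
  calc a * Real.log (b / a) ≤ a * (b / a - 1) := mul_le_mul_of_nonneg_left h ha.le
    _ = b - a := by field_simp

lemma log_normSq (z : ℂ) : Real.log (Complex.normSq z) = 2 * Real.log ‖z‖ := by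
  rw [Complex.normSq_eq_norm_sq, Real.log_pow]; norm_num

lemma norm_gg (z : ℂ) : ‖gg z‖ = ‖z‖ ^ 2 * |2 * Real.log ‖z‖| := by
  unfold gg
  rw [norm_mul, norm_pow, Complex.norm_real, log_normSq, Real.norm_eq_abs]

lemma gg_lip_aux (z w : ℂ) (hzw : ‖z‖ ≤ ‖w‖) (hw1 : ‖w‖ ≤ 1) :
    ‖gg z - gg w‖ ≤ 10 * ‖z - w‖ := by
  by_cases hz : z = 0
  · subst hz
    rw [gg_zero, zero_sub, norm_neg, norm_gg, zero_sub, norm_neg]
    by_cases hw : w = 0
    · subst hw; simp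
    have hwpos : 0 < ‖w‖ := norm_pos_iff.mpr hw
    have h := t_log_bound' ‖w‖ hwpos hw1
    rw [abs_mul, abs_two]
    nlinarith [norm_nonneg w, abs_nonneg (Real.log ‖w‖)]
  have hzpos : 0 < ‖z‖ := norm_pos_iff.mpr hz
  have hwpos : 0 < ‖w‖ := lt_of_lt_of_le hzpos hzw
  have hid : gg z - gg w = (z - w) * (z + w) * ((Real.log (Complex.normSq w) : ℝ) : ℂ)
      + z ^ 2 * (((Real.log (Complex.normSq z) - Real.log (Complex.normSq w) : ℝ)) : ℂ) := by
    unfold gg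
    push_cast
    ring
  rw [hid]
  have h1 : ‖(z - w) * (z + w) * ((Real.log (Complex.normSq w) : ℝ) : ℂ)‖ ≤ 8 * ‖z - w‖ := by
    rw [norm_mul, norm_mul, Complex.norm_real, log_normSq, Real.norm_eq_abs, abs_mul, abs_two]
    have h3 : ‖z + w‖ ≤ 2 * ‖w‖ := by
      calc ‖z + w‖ ≤ ‖z‖ + ‖w‖ := norm_add_le _ _
        _ ≤ 2 * ‖w‖ := by linarith
    have h4 := t_log_bound' ‖w‖ hwpos hw1
    calc ‖z - w‖ * ‖z + w‖ * (2 * |Real.log ‖w‖|)
        ≤ ‖z - w‖ * (2 * ‖w‖) * (2 * |Real.log ‖w‖|) := by gcongr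
      _ = 4 * ‖z - w‖ * (‖w‖ * |Real.log ‖w‖|) := by ring
      _ ≤ 4 * ‖z - w‖ * 2 := by gcongr
      _ = 8 * ‖z - w‖ := by ring
  have h2 : ‖z ^ 2 * (((Real.log (Complex.normSq z) - Real.log (Complex.normSq w) : ℝ)) : ℂ)‖
      ≤ 2 * ‖z - w‖ := by
    rw [norm_mul, norm_pow, Complex.norm_real, log_normSq, log_normSq, Real.norm_eq_abs]
    have hlogle : Real.log ‖z‖ ≤ Real.log ‖w‖ := Real.log_le_log hzpos hzw
    have habs : |2 * Real.log ‖z‖ - 2 * Real.log ‖w‖| = 2 * (Real.log ‖w‖ - Real.log ‖z‖) := by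
      rw [abs_of_nonpos (by linarith)]; ring
    rw [habs]
    have h5 := mul_log_sub ‖z‖ ‖w‖ hzpos hzw
    have h6 : ‖w‖ - ‖z‖ ≤ ‖z - w‖ := by
      rw [norm_sub_rev]; exact norm_sub_norm_le w z
    have h7 : ‖z‖ ≤ 1 := hzw.trans hw1
    have h8 : 0 ≤ ‖z‖ * (Real.log ‖w‖ - Real.log ‖z‖) :=
      mul_nonneg hzpos.le (by linarith)
    calc ‖z‖ ^ 2 * (2 * (Real.log ‖w‖ - Real.log ‖z‖))
        = 2 * (‖z‖ * (‖z‖ * (Real.log ‖w‖ - Real.log ‖z‖))) := by ring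
      _ ≤ 2 * (1 * (‖z‖ * (Real.log ‖w‖ - Real.log ‖z‖))) := by gcongr
      _ ≤ 2 * ‖z - w‖ := by linarith
  calc _ ≤ _ := norm_add_le _ _
    _ ≤ 10 * ‖z - w‖ := by linarith

lemma gg_lip (z w : ℂ) (hz : ‖z‖ ≤ 1) (hw : ‖w‖ ≤ 1) : ‖gg z - gg w‖ ≤ 10 * ‖z - w‖ := by
  rcases le_total ‖z‖ ‖w‖ with h | h
  · exact gg_lip_aux z w h hw
  · rw [norm_sub_rev, norm_sub_rev z w]
    exact gg_lip_aux w z h hz

lemma four_log_bound (t : ℝ) (h0 : 0 < t) (h1 : t ≤ 1) : t * (4 * Real.log t + 1) ^ 2 ≤ 81 := by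
  have h := sqrt_log_bound t h0 h1
  have hs0 : 0 < √t := Real.sqrt_pos.mpr h0
  have hs1 := sqrt_le_one' t h1
  have habs : |√t * (4 * Real.log t + 1)| ≤ 9 := by
    rw [abs_mul, abs_of_pos hs0]
    have : |4 * Real.log t + 1| ≤ 4 * |Real.log t| + 1 := by
      calc |4 * Real.log t + 1| ≤ |4 * Real.log t| + |(1:ℝ)| := abs_add_le _ _
        _ = 4 * |Real.log t| + 1 := by rw [abs_mul]; norm_num
    calc √t * |4 * Real.log t + 1| ≤ √t * (4 * |Real.log t| + 1) := by gcongr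
      _ = 4 * (|Real.log t| * √t) + √t := by ring
      _ ≤ 9 := by linarith
  have hsq : (√t * (4 * Real.log t + 1)) ^ 2 ≤ 9 ^ 2 := by
    rw [sq_le_sq]; rwa [abs_of_pos (by norm_num : (0:ℝ) < 9)]
  have : t * (4 * Real.log t + 1) ^ 2 = (√t * (4 * Real.log t + 1)) ^ 2 := by
    rw [mul_pow, Real.sq_sqrt h0.le]
  rw [this]; linarith

lemma phi_lip_aux (a b : ℝ) (ha : 0 ≤ a) (hab : a ≤ b) (hb : b ≤ 1) :
    |phi b - phi a| ≤ 240 * (b - a) := by
  rcases eq_or_lt_of_le ha with h0 | h0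
  · subst h0
    rcases eq_or_lt_of_le hab with h1 | h1
    · subst h1; simp
    · have := four_log_bound b h1 hb
      have hnn : 0 ≤ phi b := by unfold phi; positivity
      have hz : phi 0 = 0 := by simp [phi]
      rw [hz, sub_zero, sub_zero, abs_of_nonneg hnn]
      unfold phi
      nlinarith
  have hbpos : 0 < b := lt_of_lt_of_le h0 hab
  have ha1 : a ≤ 1 := hab.trans hb
  set la := Real.log a with hla
  set lb := Real.log b with hlb
  have hlab : la ≤ lb := Real.log_le_log h0 hab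
  have hlb0 : lb ≤ 0 := Real.log_nonpos hbpos.le hb
  have hla0 : la ≤ 0 := hlab.trans hlb0
  have hid : phi b - phi a = (b - a) * (b + a) * (4 * lb + 1) ^ 2
      + 4 * (a * (lb - la)) * (a * (4 * lb + 4 * la + 2)) := by
    unfold phi; rw [← hla, ← hlb]; ring
  rw [hid]
  have hfb := four_log_bound b hbpos hb
  rw [← hlb] at hfb
  have h1 : |(b - a) * (b + a) * (4 * lb + 1) ^ 2| ≤ 162 * (b - a) := by
    have hba : 0 ≤ b - a := by linarith
    rw [abs_of_nonneg (by positivity)]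
    calc (b - a) * (b + a) * (4 * lb + 1) ^ 2
        ≤ (b - a) * (2 * b) * (4 * lb + 1) ^ 2 := by
          have : b + a ≤ 2 * b := by linarith
          gcongr
      _ = 2 * (b - a) * (b * (4 * lb + 1) ^ 2) := by ring
      _ ≤ 2 * (b - a) * 81 := by gcongr
      _ = 162 * (b - a) := by ring
  have h2 : |4 * (a * (lb - la)) * (a * (4 * lb + 4 * la + 2))| ≤ 72 * (b - a) := by
    have h3 := mul_log_sub a b h0 hab
    rw [← hla, ← hlb] at h3
    have h4 : 0 ≤ a * (lb - la) := mul_nonneg h0.le (by linarith)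
    have h5 := t_log_bound' a h0 ha1
    rw [← hla, abs_of_nonpos hla0] at h5
    have h6 : |a * (4 * lb + 4 * la + 2)| ≤ 18 := by
      rw [abs_le]
      constructor <;> nlinarith
    rw [abs_mul, abs_of_nonneg (by positivity : 0 ≤ 4 * (a * (lb - la)))]
    calc 4 * (a * (lb - la)) * |a * (4 * lb + 4 * la + 2)| ≤ 4 * (b - a) * 18 := by
          gcongr
      _ = 72 * (b - a) := by ring
  calc _ ≤ _ := abs_add_le _ _
    _ ≤ 240 * (b - a) := by linarith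

lemma phi_lip (a b : ℝ) (ha : 0 ≤ a) (hb : 0 ≤ b) (ha1 : a ≤ 1) (hb1 : b ≤ 1) :
    |phi a - phi b| ≤ 240 * |a - b| := by
  rcases le_total a b with h | h
  · rw [abs_sub_comm, abs_sub_comm a b, abs_of_nonneg (by linarith : 0 ≤ b - a)]
    exact phi_lip_aux a b ha h hb1
  · rw [abs_of_nonneg (by linarith : 0 ≤ a - b)]
    exact phi_lip_aux b a hb h ha1

/-- smallness of `φ`. -/
lemma phi_small (t : ℝ) (h0 : 0 ≤ t) (h1 : t < 1 / 10000) : phi t ≤ 1 / 100 := by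
  rcases eq_or_lt_of_le h0 with h | h
  · subst h; simp [phi]
  have h2 := t_log_bound t h (by linarith)
  have hs : √t ≤ 1 / 100 := by
    rw [show (1:ℝ) / 100 = √((1 / 100) ^ 2) by rw [Real.sqrt_sq (by norm_num)]]
    apply Real.sqrt_le_sqrt
    norm_num
    linarith
  have h3 : |t * (4 * Real.log t + 1)| ≤ 1 / 10 := by
    have : |t * (4 * Real.log t + 1)| ≤ 4 * (t * |Real.log t|) + t := by
      rw [abs_mul, abs_of_pos h]
      have : |4 * Real.log t + 1| ≤ 4 * |Real.log t| + 1 := by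
        calc |4 * Real.log t + 1| ≤ |4 * Real.log t| + |(1:ℝ)| := abs_add_le _ _
          _ = 4 * |Real.log t| + 1 := by rw [abs_mul]; norm_num
      nlinarith
    linarith
  have h4 : phi t = (t * (4 * Real.log t + 1)) ^ 2 := by unfold phi; ring
  rw [h4]
  have h5 : (t * (4 * Real.log t + 1)) ^ 2 ≤ (1 / 10) ^ 2 := by
    rw [sq_le_sq]; rwa [abs_of_pos (by norm_num : (0:ℝ) < 1 / 10)]
  norm_num at h5 ⊢
  linarith

end Pool.Agent.H95R3.Ell
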