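import Mathlib
import Pool.Agent.H95R3.EllA

/-!
The functions of the counterexample on the plane, their derivatives and Lipschitz bounds (MP_4bee3f_an).
-/

set_option autoImplicit false

namespace Pool.Agent.H95R3.Ell

open Complex

abbrev E2 := EuclideanSpace ℝ (Fin 2)

/-- the identification of the plane with `ℂ`. -/
noncomputable def toC (v : E2) : ℂ := ⟨v 0, v 1⟩

lemma norm_toC_sub (v w : E2) : ‖toC v - toC w‖ = ‖v - w‖ := by
  rw [EuclideanSpace.norm_eq, Fin.sum_univ_two, Complex.norm_def, Complex.normSq_apply]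
  congr 1
  simp only [toC, Complex.sub_re, Complex.sub_im, PiLp.sub_apply, Real.norm_eq_abs, sq_abs]
  ring

lemma norm_toC (v : E2) : ‖toC v‖ = ‖v‖ := by
  have h := norm_toC_sub v 0
  have h0 : toC 0 = 0 := by
    apply Complex.ext <;> simp [toC]
  rw [h0, sub_zero, sub_zero] at h
  exact h

lemma toC_ne (v : E2) (hv : v ≠ 0) : toC v ≠ 0 := by
  rw [← norm_pos_iff, norm_toC, norm_pos_iff]; exact hv

lemma normSq_toC (v : E2) : Complex.normSq (toC v) = v 0 ^ 2 + v 1 ^ 2 := by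
  rw [Complex.normSq_apply]; simp only [toC]; ring

/-- the solution -/
noncomputable def uu : Fin 2 → E2 → ℝ := fun i v =>
  if i = 0 then v 0 + (v 0 ^ 2 - v 1 ^ 2) * Real.log (v 0 ^ 2 + v 1 ^ 2)
  else -v 1 + (2 * v 0 * v 1) * Real.log (v 0 ^ 2 + v 1 ^ 2)

/-- the right-hand side -/
noncomputable def cc : Fin 2 → E2 → ℝ := fun i v =>
  if i = 0 then 2 + 2 * ((v 0 ^ 3 - 3 * v 0 * v 1 ^ 2) / (v 0 ^ 2 + v 1 ^ 2))
  else 2 * ((3 * v 0 ^ 2 * v 1 - v 1 ^ 3) / (v 0 ^ 2 + v 1 ^ 2))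

/-- the Jacobian -/
noncomputable def JJ : E2 → ℝ := fun v =>
  phi ‖v‖ - 1 - 2 * ((v 0 ^ 3 - 3 * v 0 * v 1 ^ 2) / (v 0 ^ 2 + v 1 ^ 2)) - ‖v‖ ^ 2

/-- constant coefficients of the Cauchy–Riemann operator -/
def AA : Fin 2 → Fin 2 → Fin 2 → E2 → ℝ := fun j i l _ =>
  if i = 0 then (if j = 0 then (if l = 0 then 1 else 0) else (if l = 0 then 0 else -1))
  else (if j = 0 then (if l = 0 then 0 else 1) else (if l = 0 then 1 else 0))

lemma uu0 (v : E2) : uu 0 v = v 0 + (v 0 ^ 2 - v 1 ^ 2) * Real.log (v 0 ^ 2 + v 1 ^ 2) := by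
  simp [uu]
lemma uu1 (v : E2) : uu 1 v = -v 1 + (2 * v 0 * v 1) * Real.log (v 0 ^ 2 + v 1 ^ 2) := by
  simp [uu]

lemma gg_re (v : E2) : (gg (toC v)).re = (v 0 ^ 2 - v 1 ^ 2) * Real.log (v 0 ^ 2 + v 1 ^ 2) := by
  unfold gg
  rw [normSq_toC, Complex.mul_re, Complex.ofReal_re, Complex.ofReal_im, pow_two, Complex.mul_re]
  simp only [toC]
  ring

lemma gg_im (v : E2) : (gg (toC v)).im = (2 * v 0 * v 1) * Real.log (v 0 ^ 2 + v 1 ^ 2) := by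
  unfold gg
  rw [normSq_toC, Complex.mul_im, Complex.ofReal_re, Complex.ofReal_im, pow_two, Complex.mul_im]
  simp only [toC]
  ring

lemma ff_re (v : E2) : (ff (toC v)).re = (v 0 ^ 3 - 3 * v 0 * v 1 ^ 2) / (v 0 ^ 2 + v 1 ^ 2) := by
  unfold ff
  rw [normSq_toC, Complex.div_ofReal_re]
  congr 1
  rw [pow_succ, pow_two, Complex.mul_re, Complex.mul_re, Complex.mul_im]
  simp only [toC]
  ring

lemma ff_im (v : E2) : (ff (toC v)).im = (3 * v 0 ^ 2 * v 1 - v 1 ^ 3) / (v 0 ^ 2 + v 1 ^ 2) := by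
  unfold ff
  rw [normSq_toC, Complex.div_ofReal_im]
  congr 1
  rw [pow_succ, pow_two, Complex.mul_im, Complex.mul_re, Complex.mul_im]
  simp only [toC]
  ring

lemma abs_coord_sub (v w : E2) (i : Fin 2) : |v i - w i| ≤ ‖v - w‖ := by
  have := PiLp.norm_apply_le (v - w) i
  simpa [Real.norm_eq_abs] using this

lemma uu_lip (i : Fin 2) (v w : E2) (hv : ‖v‖ ≤ 1) (hw : ‖w‖ ≤ 1) :
    |uu i v - uu i w| ≤ 11 * ‖v - w‖ := by
  have hg := gg_lip (toC v) (toC w) (by rw [norm_toC]; exact hv) (by rw [norm_toC]; exact hw)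
  rw [norm_toC_sub] at hg
  have h0 := abs_coord_sub v w 0
  have h1 := abs_coord_sub v w 1
  fin_cases i
  · show |uu 0 v - uu 0 w| ≤ _
    have : uu 0 v - uu 0 w = (v 0 - w 0) + (gg (toC v) - gg (toC w)).re := by
      rw [uu0, uu0, Complex.sub_re, gg_re, gg_re]; ring
    rw [this]
    have h2 := Complex.abs_re_le_norm (gg (toC v) - gg (toC w))
    calc _ ≤ _ := abs_add_le _ _
      _ ≤ 11 * ‖v - w‖ := by linarith
  · show |uu 1 v - uu 1 w| ≤ _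
    have : uu 1 v - uu 1 w = -(v 1 - w 1) + (gg (toC v) - gg (toC w)).im := by
      rw [uu1, uu1, Complex.sub_im, gg_im, gg_im]; ring
    rw [this]
    have h2 := Complex.abs_im_le_norm (gg (toC v) - gg (toC w))
    calc _ ≤ _ := abs_add_le _ _
      _ ≤ 11 * ‖v - w‖ := by rw [abs_neg]; linarith

lemma cc_lip (i : Fin 2) (v w : E2) : |cc i v - cc i w| ≤ 6 * ‖v - w‖ := by
  have hg := ff_lip (toC v) (toC w)
  rw [norm_toC_sub] at hg
  fin_cases i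
  · show |cc 0 v - cc 0 w| ≤ _
    have : cc 0 v - cc 0 w = 2 * (ff (toC v) - ff (toC w)).re := by
      simp only [cc, if_true]
      rw [Complex.sub_re, ff_re, ff_re]; ring
    rw [this, abs_mul, abs_two]
    have h2 := Complex.abs_re_le_norm (ff (toC v) - ff (toC w))
    linarith
  · show |cc 1 v - cc 1 w| ≤ _
    have : cc 1 v - cc 1 w = 2 * (ff (toC v) - ff (toC w)).im := by
      simp only [cc, one_ne_zero, if_false]
      rw [Complex.sub_im, ff_im, ff_im]; ring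
    rw [this, abs_mul, abs_two]
    have h2 := Complex.abs_im_le_norm (ff (toC v) - ff (toC w))
    linarith

lemma JJ_lip (v w : E2) (hv : ‖v‖ ≤ 1) (hw : ‖w‖ ≤ 1) : |JJ v - JJ w| ≤ 250 * ‖v - w‖ := by
  have hf := ff_lip (toC v) (toC w)
  rw [norm_toC_sub] at hf
  have hp := phi_lip ‖v‖ ‖w‖ (norm_nonneg _) (norm_nonneg _) hv hw
  have hn : |‖v‖ - ‖w‖| ≤ ‖v - w‖ := abs_norm_sub_norm_le v w
  have h2 := Complex.abs_re_le_norm (ff (toC v) - ff (toC w))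
  have hid : JJ v - JJ w = (phi ‖v‖ - phi ‖w‖) + (-2 * (ff (toC v) - ff (toC w)).re
      + -((‖v‖ + ‖w‖) * (‖v‖ - ‖w‖))) := by
    unfold JJ
    rw [Complex.sub_re, ff_re, ff_re]; ring
  rw [hid]
  have h3 : |(‖v‖ + ‖w‖) * (‖v‖ - ‖w‖)| ≤ 2 * ‖v - w‖ := by
    rw [abs_mul, abs_of_nonneg (by positivity : 0 ≤ ‖v‖ + ‖w‖)]
    apply mul_le_mul (by linarith) hn (abs_nonneg _) (by norm_num)
  have h4 : |(-2) * (ff (toC v) - ff (toC w)).re| ≤ 6 * ‖v - w‖ := by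
    rw [abs_mul, abs_neg, abs_two]
    linarith
  generalize (‖v‖ + ‖w‖) * (‖v‖ - ‖w‖) = R at h3 ⊢
  generalize (-2) * (ff (toC v) - ff (toC w)).re = Q at h4 ⊢
  generalize phi ‖v‖ - phi ‖w‖ = P at hp ⊢
  have e1 : |P + (Q + -R)| ≤ |P| + |Q + -R| := abs_add_le _ _
  have e2 : |Q + -R| ≤ |Q| + |R| := by
    have := abs_add_le Q (-R)
    rwa [abs_neg] at this
  have hP2 : |P| ≤ 240 * ‖v - w‖ := by linarith
  linarith [norm_nonneg (v - w)]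

lemma JJ_neg (v : E2) (hv : ‖v‖ < 1 / 10000) : JJ v < 0 := by
  have h1 := phi_small ‖v‖ (norm_nonneg _) hv
  have h2 := Complex.abs_re_le_norm (ff (toC v))
  rw [norm_ff, norm_toC] at h2
  rw [ff_re] at h2
  have h3 := (abs_le.mp h2).1
  unfold JJ
  nlinarith [norm_nonneg v]

/-- derivative of the solution off the origin -/
lemma hasF (v : E2) (hv : v ≠ 0) :
    HasFDerivAt (uu 0) ((EuclideanSpace.proj 0 : E2 →L[ℝ] ℝ) +
      ((v 0 ^ 2 - v 1 ^ 2) • ((v 0 ^ 2 + v 1 ^ 2)⁻¹ • ((2 * v 0) • (EuclideanSpace.proj 0 : E2 →L[ℝ] ℝ)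
        + (2 * v 1) • (EuclideanSpace.proj 1 : E2 →L[ℝ] ℝ)))
      + Real.log (v 0 ^ 2 + v 1 ^ 2) • ((2 * v 0) • (EuclideanSpace.proj 0 : E2 →L[ℝ] ℝ)
        - (2 * v 1) • (EuclideanSpace.proj 1 : E2 →L[ℝ] ℝ)))) v ∧
    HasFDerivAt (uu 1) (-(EuclideanSpace.proj 1 : E2 →L[ℝ] ℝ) +
      ((2 * v 0 * v 1) • ((v 0 ^ 2 + v 1 ^ 2)⁻¹ • ((2 * v 0) • (EuclideanSpace.proj 0 : E2 →L[ℝ] ℝ)
        + (2 * v 1) • (EuclideanSpace.proj 1 : E2 →L[ℝ] ℝ)))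
      + Real.log (v 0 ^ 2 + v 1 ^ 2) • ((2 * v 0) • (EuclideanSpace.proj 1 : E2 →L[ℝ] ℝ)
        + (2 * v 1) • (EuclideanSpace.proj 0 : E2 →L[ℝ] ℝ)))) v := by
  have hx : HasFDerivAt (fun w : E2 => w 0) (EuclideanSpace.proj 0 : E2 →L[ℝ] ℝ) v :=
    (EuclideanSpace.proj 0 : E2 →L[ℝ] ℝ).hasFDerivAt
  have hy : HasFDerivAt (fun w : E2 => w 1) (EuclideanSpace.proj 1 : E2 →L[ℝ] ℝ) v :=
    (EuclideanSpace.proj 1 : E2 →L[ℝ] ℝ).hasFDerivAt
  have hne : v 0 ^ 2 + v 1 ^ 2 ≠ 0 := by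
    rw [← normSq_toC]
    exact (Complex.normSq_pos.mpr (toC_ne v hv)).ne'
  have hx2 : HasFDerivAt (fun w : E2 => w 0 ^ 2) ((2 * v 0) • (EuclideanSpace.proj 0 : E2 →L[ℝ] ℝ)) v := by
    have := hx.pow 2
    simpa using this
  have hy2 : HasFDerivAt (fun w : E2 => w 1 ^ 2) ((2 * v 1) • (EuclideanSpace.proj 1 : E2 →L[ℝ] ℝ)) v := by
    have := hy.pow 2
    simpa using this
  have hL := (hx2.add hy2).log hne
  constructor
  · have h := hx.add ((hx2.sub hy2).mul hL)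
    refine h.congr_of_eventuallyEq ?_
    exact Filter.Eventually.of_forall fun w => by rw [uu0]; rfl
  · have hxy : HasFDerivAt (fun w : E2 => 2 * w 0 * w 1)
        ((2 * v 0) • (EuclideanSpace.proj 1 : E2 →L[ℝ] ℝ)
        + (2 * v 1) • (EuclideanSpace.proj 0 : E2 →L[ℝ] ℝ)) v := by
      have := (hx.const_mul 2).mul hy
      refine this.congr_fderiv ?_
      ext w
      simp
      ring
    have h := hy.neg.add (hxy.mul hL)
    refine h.congr_of_eventuallyEq ?_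
    exact Filter.Eventually.of_forall fun w => by rw [uu1]; rfl

lemma fd00 (v : E2) (hv : v ≠ 0) : fderiv ℝ (uu 0) v (EuclideanSpace.single 0 1) =
    1 + ((v 0 ^ 2 - v 1 ^ 2) * ((v 0 ^ 2 + v 1 ^ 2)⁻¹ * (2 * v 0))
      + Real.log (v 0 ^ 2 + v 1 ^ 2) * (2 * v 0)) := by
  rw [(hasF v hv).1.fderiv]
  simp

lemma fd01 (v : E2) (hv : v ≠ 0) : fderiv ℝ (uu 0) v (EuclideanSpace.single 1 1) =
    ((v 0 ^ 2 - v 1 ^ 2) * ((v 0 ^ 2 + v 1 ^ 2)⁻¹ * (2 * v 1))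
      - Real.log (v 0 ^ 2 + v 1 ^ 2) * (2 * v 1)) := by
  rw [(hasF v hv).1.fderiv]
  simp
  ring

lemma fd10 (v : E2) (hv : v ≠ 0) : fderiv ℝ (uu 1) v (EuclideanSpace.single 0 1) =
    ((2 * v 0 * v 1) * ((v 0 ^ 2 + v 1 ^ 2)⁻¹ * (2 * v 0))
      + Real.log (v 0 ^ 2 + v 1 ^ 2) * (2 * v 1)) := by
  rw [(hasF v hv).2.fderiv]
  simp

lemma fd11 (v : E2) (hv : v ≠ 0) : fderiv ℝ (uu 1) v (EuclideanSpace.single 1 1) =
    -1 + ((2 * v 0 * v 1) * ((v 0 ^ 2 + v 1 ^ 2)⁻¹ * (2 * v 1))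
      + Real.log (v 0 ^ 2 + v 1 ^ 2) * (2 * v 0)) := by
  rw [(hasF v hv).2.fderiv]
  simp

lemma norm_sq_coord (v : E2) : ‖v‖ ^ 2 = v 0 ^ 2 + v 1 ^ 2 := by
  rw [EuclideanSpace.norm_sq_eq, Fin.sum_univ_two]
  simp

lemma phi_norm (v : E2) : phi ‖v‖ =
    (v 0 ^ 2 + v 1 ^ 2) * (2 * Real.log (v 0 ^ 2 + v 1 ^ 2) + 1) ^ 2 := by
  unfold phi
  rw [← norm_sq_coord, Real.log_pow]
  push_cast
  ring

lemma jac_eq (v : E2) (hv : v ≠ 0) :
    fderiv ℝ (uu 0) v (EuclideanSpace.single 0 1) * fderiv ℝ (uu 1) v (EuclideanSpace.single 1 1)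
    - fderiv ℝ (uu 0) v (EuclideanSpace.single 1 1) * fderiv ℝ (uu 1) v (EuclideanSpace.single 0 1)
    = JJ v := by
  have hne : v 0 ^ 2 + v 1 ^ 2 ≠ 0 := by
    rw [← normSq_toC]
    exact (Complex.normSq_pos.mpr (toC_ne v hv)).ne'
  rw [fd00 v hv, fd01 v hv, fd10 v hv, fd11 v hv]
  unfold JJ
  rw [phi_norm, norm_sq_coord]
  set L := Real.log (v 0 ^ 2 + v 1 ^ 2)
  field_simp
  ring

lemma eq0 (v : E2) (hv : v ≠ 0) :
    fderiv ℝ (uu 0) v (EuclideanSpace.single 0 1) - fderiv ℝ (uu 1) v (EuclideanSpace.single 1 1)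
    = cc 0 v := by
  have hne : v 0 ^ 2 + v 1 ^ 2 ≠ 0 := by
    rw [← normSq_toC]
    exact (Complex.normSq_pos.mpr (toC_ne v hv)).ne'
  rw [fd00 v hv, fd11 v hv]
  simp only [cc, if_true]
  set L := Real.log (v 0 ^ 2 + v 1 ^ 2)
  field_simp
  ring

lemma eq1 (v : E2) (hv : v ≠ 0) :
    fderiv ℝ (uu 1) v (EuclideanSpace.single 0 1) + fderiv ℝ (uu 0) v (EuclideanSpace.single 1 1)
    = cc 1 v := by
  have hne : v 0 ^ 2 + v 1 ^ 2 ≠ 0 := by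
    rw [← normSq_toC]
    exact (Complex.normSq_pos.mpr (toC_ne v hv)).ne'
  rw [fd10 v hv, fd01 v hv]
  simp only [cc, one_ne_zero, if_false]
  set L := Real.log (v 0 ^ 2 + v 1 ^ 2)
  field_simp
  ring

end Pool.Agent.H95R3.Ell
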