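import Mathlib

/-!
Entropy of weighted sums: characteristic functions of `γ.withDensity (trigonometric polynomial)`.
-/

set_option autoImplicit false

open MeasureTheory ProbabilityTheory Real

namespace Pool.Agent.H95R3.EntW

/-- the standard Gaussian measure -/
noncomputable abbrev gam : Measure ℝ := gaussianReal 0 1

/-- `exp (-(t^2)/2)` -/
noncomputable def gE (t : ℝ) : ℝ := Real.exp (-(t ^ 2) / 2)

lemma gE_pos (t : ℝ) : 0 < gE t := Real.exp_pos _

lemma gE_neg (t : ℝ) : gE (-t) = gE t := by unfold gE; congr 1; ring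

lemma charFun_gam (t : ℝ) : charFun gam t = (gE t : ℂ) := by
  rw [charFun_gaussianReal, gE]
  push_cast
  congr 1
  simp
  ring

lemma int_exp (t : ℝ) : ∫ x, Complex.exp (t * x * Complex.I) ∂gam = (gE t : ℂ) := by
  rw [← charFun_gam, charFun_apply_real]

lemma int_exp_cos (t a : ℝ) :
    ∫ x, Complex.exp (t * x * Complex.I) * (Real.cos (a * x) : ℂ) ∂gam
      = ((gE (t + a) + gE (t - a)) / 2 : ℝ) := by
  have h1 : ∀ x : ℝ, Complex.exp (t * x * Complex.I) * (Real.cos (a * x) : ℂ)
      = (1 / 2) * Complex.exp (((t + a : ℝ) : ℂ) * x * Complex.I)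
        + (1 / 2) * Complex.exp (((t - a : ℝ) : ℂ) * x * Complex.I) := by
    intro x
    have e1 : Complex.exp (((t + a : ℝ) : ℂ) * x * Complex.I)
        = Complex.exp (t * x * Complex.I) * Complex.exp (a * x * Complex.I) := by
      rw [← Complex.exp_add]; congr 1; push_cast; ring
    have e2 : Complex.exp (((t - a : ℝ) : ℂ) * x * Complex.I)
        = Complex.exp (t * x * Complex.I) * Complex.exp (-(a * x) * Complex.I) := by
      rw [← Complex.exp_add]; congr 1; push_cast; ring
    rw [e1, e2, Complex.ofReal_cos, Complex.cos]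
    push_cast
    ring
  simp_rw [h1]
  have hi : ∀ u : ℝ, Integrable (fun x : ℝ => (1 / 2 : ℂ) * Complex.exp ((u : ℂ) * x * Complex.I))
      gam := by
    intro u
    refine Integrable.of_bound (C := 1 / 2) ?_ (Filter.Eventually.of_forall ?_)
    · exact (by fun_prop : Continuous fun x : ℝ =>
        (1 / 2 : ℂ) * Complex.exp ((u : ℂ) * x * Complex.I)).aestronglyMeasurable
    · intro x
      have : ‖Complex.exp ((u : ℂ) * x * Complex.I)‖ = 1 := by
        rw [show (u : ℂ) * x * Complex.I = ((u * x : ℝ) : ℂ) * Complex.I by push_cast; ring]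
        exact Complex.norm_exp_ofReal_mul_I _
      rw [norm_mul, this]; norm_num
  rw [integral_add (hi _) (hi _), integral_const_mul, integral_const_mul, int_exp, int_exp]
  push_cast
  ring

lemma int_cos (a : ℝ) : ∫ x, Real.cos (a * x) ∂gam = gE a := by
  have h := int_exp_cos 0 a
  simp only [Complex.ofReal_zero, zero_mul, Complex.exp_zero, one_mul, zero_add, zero_sub] at h
  rw [gE_neg] at h
  have h2 : (∫ x, (Real.cos (a * x) : ℂ) ∂gam) = ((∫ x, Real.cos (a * x) ∂gam : ℝ) : ℂ) :=
    integral_ofReal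
  rw [h2] at h
  have h3 := Complex.ofReal_injective h
  rw [h3]; ring

/-- trigonometric polynomial with four frequencies -/
noncomputable def trig (k0 k1 k2 k3 k4 a1 a2 a3 a4 : ℝ) (x : ℝ) : ℝ :=
  k0 + k1 * Real.cos (a1 * x) + k2 * Real.cos (a2 * x) + k3 * Real.cos (a3 * x)
    + k4 * Real.cos (a4 * x)

lemma trig_continuous (k0 k1 k2 k3 k4 a1 a2 a3 a4 : ℝ) :
    Continuous (trig k0 k1 k2 k3 k4 a1 a2 a3 a4) := by
  unfold trig; fun_prop

lemma trig_bound (k0 k1 k2 k3 k4 a1 a2 a3 a4 x : ℝ) :
    |trig k0 k1 k2 k3 k4 a1 a2 a3 a4 x| ≤ |k0| + |k1| + |k2| + |k3| + |k4| := by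
  unfold trig
  have h : ∀ k a : ℝ, |k * Real.cos (a * x)| ≤ |k| := by
    intro k a
    rw [abs_mul]
    exact mul_le_of_le_one_right (abs_nonneg _) (Real.abs_cos_le_one _)
  calc _ ≤ |k0| + |k1 * Real.cos (a1 * x)| + |k2 * Real.cos (a2 * x)|
        + |k3 * Real.cos (a3 * x)| + |k4 * Real.cos (a4 * x)| := by
        refine (abs_add_le _ _).trans (add_le_add_left ?_ _)
        refine (abs_add_le _ _).trans (add_le_add_left ?_ _)
        refine (abs_add_le _ _).trans (add_le_add_left ?_ _)
        exact abs_add_le _ _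
    _ ≤ _ := by
        have := h k1 a1; have := h k2 a2; have := h k3 a3; have := h k4 a4
        linarith

lemma int_exp_trig (k0 k1 k2 k3 k4 a1 a2 a3 a4 t : ℝ) :
    ∫ x, Complex.exp (t * x * Complex.I) * (trig k0 k1 k2 k3 k4 a1 a2 a3 a4 x : ℂ) ∂gam
      = ((k0 * gE t + k1 * ((gE (t + a1) + gE (t - a1)) / 2)
        + k2 * ((gE (t + a2) + gE (t - a2)) / 2)
        + k3 * ((gE (t + a3) + gE (t - a3)) / 2)
        + k4 * ((gE (t + a4) + gE (t - a4)) / 2) : ℝ) : ℂ) := by
  have hc : ∀ a : ℝ, Integrable (fun x : ℝ => Complex.exp (t * x * Complex.I)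
      * (Real.cos (a * x) : ℂ)) gam := by
    intro a
    refine Integrable.of_bound (C := 1) ?_ (Filter.Eventually.of_forall ?_)
    · exact (by fun_prop : Continuous fun x : ℝ => Complex.exp (t * x * Complex.I)
        * (Real.cos (a * x) : ℂ)).aestronglyMeasurable
    · intro x
      have : ‖Complex.exp ((t : ℂ) * x * Complex.I)‖ = 1 := by
        rw [show (t : ℂ) * x * Complex.I = ((t * x : ℝ) : ℂ) * Complex.I by push_cast; ring]
        exact Complex.norm_exp_ofReal_mul_I _
      rw [norm_mul, this, one_mul, Complex.norm_real]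
      exact Real.abs_cos_le_one _
  have h0 : Integrable (fun x : ℝ => Complex.exp (t * x * Complex.I)) gam := by
    have := hc 0
    simpa using this
  have he : ∀ x : ℝ, Complex.exp (t * x * Complex.I) * (trig k0 k1 k2 k3 k4 a1 a2 a3 a4 x : ℂ)
      = (k0 : ℂ) * Complex.exp (t * x * Complex.I)
        + (k1 : ℂ) * (Complex.exp (t * x * Complex.I) * (Real.cos (a1 * x) : ℂ))
        + (k2 : ℂ) * (Complex.exp (t * x * Complex.I) * (Real.cos (a2 * x) : ℂ))
        + (k3 : ℂ) * (Complex.exp (t * x * Complex.I) * (Real.cos (a3 * x) : ℂ))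
        + (k4 : ℂ) * (Complex.exp (t * x * Complex.I) * (Real.cos (a4 * x) : ℂ)) := by
    intro x; unfold trig; push_cast; ring
  simp_rw [he]
  rw [integral_add, integral_add, integral_add, integral_add, integral_const_mul,
    integral_const_mul, integral_const_mul, integral_const_mul, integral_const_mul,
    int_exp, int_exp_cos, int_exp_cos, int_exp_cos, int_exp_cos]
  · push_cast; ring
  · exact h0.const_mul _
  · exact (hc _).const_mul _
  · exact (h0.const_mul _).add ((hc _).const_mul _)
  · exact (hc _).const_mul _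
  · exact ((h0.const_mul _).add ((hc _).const_mul _)).add ((hc _).const_mul _)
  · exact (hc _).const_mul _
  · exact (((h0.const_mul _).add ((hc _).const_mul _)).add ((hc _).const_mul _)).add
      ((hc _).const_mul _)
  · exact (hc _).const_mul _

/-- The measure with density a nonnegative trigonometric polynomial with respect to `γ`. -/
lemma charFun_withDensity {R : ℝ → ℝ} (hR : Continuous R) (h0 : ∀ x, 0 ≤ R x) (t : ℝ) :
    charFun (gam.withDensity (fun x => ENNReal.ofReal (R x))) t
      = ∫ x, Complex.exp (t * x * Complex.I) * (R x : ℂ) ∂gam := by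
  rw [charFun_apply_real, integral_withDensity_eq_integral_toReal_smul]
  · refine integral_congr_ae (Filter.Eventually.of_forall fun x => ?_)
    simp only [ENNReal.toReal_ofReal (h0 x), Complex.real_smul]
    ring
  · exact hR.measurable.ennreal_ofReal
  · exact Filter.Eventually.of_forall fun x => ENNReal.ofReal_lt_top

end Pool.Agent.H95R3.EntW
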