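import Pool.Agent.H95R3.EntWA

/-!
Entropy of weighted sums: the law of `c X + s Y` and its entropy.
-/

set_option autoImplicit false

open MeasureTheory ProbabilityTheory Real

namespace Pool.Agent.H95R3.EntW

/-- the parameter `ε` -/
noncomputable def ep : ℝ := 1 / 200

/-- normalising constant -/
noncomputable def ZZ : ℝ := 1 + ep * gE 10

lemma ZZ_pos : 0 < ZZ := by
  unfold ZZ ep
  have := gE_pos 10
  positivity

/-- density of the law of `X` with respect to `γ` -/
noncomputable def RX : ℝ → ℝ := trig (1 / ZZ) (ep / ZZ) 0 0 0 10 0 0 0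

/-- density of the law of `c X + s Y` with respect to `γ` -/
noncomputable def RS (c s : ℝ) : ℝ → ℝ :=
  trig (1 / ZZ ^ 2) (ep * gE (10 * s) / ZZ ^ 2) (ep * gE (10 * c) / ZZ ^ 2)
    (ep ^ 2 / 2 * gE (10 * (c - s)) / ZZ ^ 2) (ep ^ 2 / 2 * gE (10 * (c + s)) / ZZ ^ 2)
    (10 * c) (10 * s) (10 * (c + s)) (10 * (c - s))

/-- the unnormalised density -/
noncomputable def US (c s : ℝ) (x : ℝ) : ℝ :=
  ep * gE (10 * s) * Real.cos (10 * c * x) + ep * gE (10 * c) * Real.cos (10 * s * x)
    + ep ^ 2 / 2 * gE (10 * (c - s)) * Real.cos (10 * (c + s) * x)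
    + ep ^ 2 / 2 * gE (10 * (c + s)) * Real.cos (10 * (c - s) * x)

lemma RS_eq (c s x : ℝ) : RS c s x = (1 + US c s x) / ZZ ^ 2 := by
  unfold RS US trig; ring

lemma gE_le_one (t : ℝ) : gE t ≤ 1 := by
  unfold gE
  rw [Real.exp_le_one_iff]
  have := sq_nonneg t
  linarith

lemma abs_mul_cos_le (k a x : ℝ) (hk : 0 ≤ k) : |k * Real.cos (a * x)| ≤ k := by
  rw [abs_mul, abs_of_nonneg hk]
  exact mul_le_of_le_one_right hk (Real.abs_cos_le_one _)

lemma US_abs_le (c s x : ℝ) : |US c s x| ≤ 1 / 50 := by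
  have h1 := abs_mul_cos_le (ep * gE (10 * s)) (10 * c) x
    (by unfold ep; have := gE_pos (10 * s); positivity)
  have h2 := abs_mul_cos_le (ep * gE (10 * c)) (10 * s) x
    (by unfold ep; have := gE_pos (10 * c); positivity)
  have h3 := abs_mul_cos_le (ep ^ 2 / 2 * gE (10 * (c - s))) (10 * (c + s)) x
    (by unfold ep; have := gE_pos (10 * (c - s)); positivity)
  have h4 := abs_mul_cos_le (ep ^ 2 / 2 * gE (10 * (c + s))) (10 * (c - s)) x
    (by unfold ep; have := gE_pos (10 * (c + s)); positivity)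
  have g1 := gE_le_one (10 * s)
  have g2 := gE_le_one (10 * c)
  have g3 := gE_le_one (10 * (c - s))
  have g4 := gE_le_one (10 * (c + s))
  unfold US
  unfold ep at *
  rw [abs_le] at *
  constructor <;> nlinarith

lemma RS_pos (c s x : ℝ) : 0 < RS c s x := by
  rw [RS_eq]
  have := US_abs_le c s x
  rw [abs_le] at this
  have hz := ZZ_pos
  apply div_pos
  · linarith
  · positivity

lemma RS_continuous (c s : ℝ) : Continuous (RS c s) := trig_continuous _ _ _ _ _ _ _ _ _

lemma RX_continuous : Continuous RX := trig_continuous _ _ _ _ _ _ _ _ _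

lemma RX_eq (x : ℝ) : RX x = (1 + ep * Real.cos (10 * x)) / ZZ := by
  unfold RX trig; ring

lemma RX_pos (x : ℝ) : 0 < RX x := by
  rw [RX_eq]
  apply div_pos _ ZZ_pos
  have := Real.neg_one_le_cos (10 * x)
  unfold ep
  linarith

/-- the law of `X` -/
noncomputable def muX : Measure ℝ := gam.withDensity (fun x => ENNReal.ofReal (RX x))

/-- the law of `c X + s Y` -/
noncomputable def muS (c s : ℝ) : Measure ℝ := gam.withDensity (fun x => ENNReal.ofReal (RS c s x))

lemma charFun_muX (t : ℝ) :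
    charFun muX t = (((gE t + ep * ((gE (t + 10) + gE (t - 10)) / 2)) / ZZ : ℝ) : ℂ) := by
  unfold muX
  rw [charFun_withDensity RX_continuous (fun x => (RX_pos x).le), RX, int_exp_trig]
  congr 1
  ring

lemma charFun_muS (c s t : ℝ) :
    charFun (muS c s) t = (((gE t + ep * gE (10 * s) * ((gE (t + 10 * c) + gE (t - 10 * c)) / 2)
      + ep * gE (10 * c) * ((gE (t + 10 * s) + gE (t - 10 * s)) / 2)
      + ep ^ 2 / 2 * gE (10 * (c - s)) * ((gE (t + 10 * (c + s)) + gE (t - 10 * (c + s))) / 2)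
      + ep ^ 2 / 2 * gE (10 * (c + s)) * ((gE (t + 10 * (c - s)) + gE (t - 10 * (c - s))) / 2))
        / ZZ ^ 2 : ℝ) : ℂ) := by
  unfold muS
  rw [charFun_withDensity (RS_continuous c s) (fun x => (RS_pos c s x).le), RS, int_exp_trig]
  congr 1
  ring

lemma gE_mul (a b a' b' : ℝ) (h : a ^ 2 + b ^ 2 = a' ^ 2 + b' ^ 2) :
    gE a * gE b = gE a' * gE b' := by
  unfold gE
  rw [← Real.exp_add, ← Real.exp_add]
  congr 1
  linarith

lemma charFun_mul (c s t : ℝ) (h : c ^ 2 + s ^ 2 = 1) :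
    charFun muX (c * t) * charFun muX (s * t) = charFun (muS c s) t := by
  rw [charFun_muX, charFun_muX, charFun_muS, ← Complex.ofReal_mul]
  congr 1
  have e0 : gE (c * t) * gE (s * t) = gE t := by
    rw [gE_mul (c * t) (s * t) t 0 (by nlinarith)]
    unfold gE; simp
  have e1 : gE (c * t + 10) * gE (s * t) = gE (10 * s) * gE (t + 10 * c) :=
    gE_mul _ _ _ _ (by linear_combination (t ^ 2 - 100) * h)
  have e2 : gE (c * t - 10) * gE (s * t) = gE (10 * s) * gE (t - 10 * c) :=
    gE_mul _ _ _ _ (by linear_combination (t ^ 2 - 100) * h)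
  have e3 : gE (c * t) * gE (s * t + 10) = gE (10 * c) * gE (t + 10 * s) :=
    gE_mul _ _ _ _ (by linear_combination (t ^ 2 - 100) * h)
  have e4 : gE (c * t) * gE (s * t - 10) = gE (10 * c) * gE (t - 10 * s) :=
    gE_mul _ _ _ _ (by linear_combination (t ^ 2 - 100) * h)
  have e5 : gE (c * t + 10) * gE (s * t + 10) = gE (10 * (c - s)) * gE (t + 10 * (c + s)) :=
    gE_mul _ _ _ _ (by linear_combination (t ^ 2 - 200) * h)
  have e6 : gE (c * t - 10) * gE (s * t - 10) = gE (10 * (c - s)) * gE (t - 10 * (c + s)) :=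
    gE_mul _ _ _ _ (by linear_combination (t ^ 2 - 200) * h)
  have e7 : gE (c * t + 10) * gE (s * t - 10) = gE (10 * (c + s)) * gE (t + 10 * (c - s)) :=
    gE_mul _ _ _ _ (by linear_combination (t ^ 2 - 200) * h)
  have e8 : gE (c * t - 10) * gE (s * t + 10) = gE (10 * (c + s)) * gE (t - 10 * (c - s)) :=
    gE_mul _ _ _ _ (by linear_combination (t ^ 2 - 200) * h)
  rw [div_mul_div_comm, ← sq]
  congr 1
  linear_combination e0 + ep / 2 * (e1 + e2 + e3 + e4) + ep ^ 2 / 4 * (e5 + e6 + e7 + e8)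

lemma gE_zero : gE 0 = 1 := by unfold gE; simp

instance : IsFiniteMeasure muX := by
  unfold muX
  refine isFiniteMeasure_withDensity_ofReal ?_
  refine HasFiniteIntegral.of_bounded (C := |1 / ZZ| + |ep / ZZ| + |0| + |0| + |0|)
    (Filter.Eventually.of_forall fun x => ?_)
  rw [Real.norm_eq_abs]
  exact trig_bound _ _ _ _ _ _ _ _ _ _

instance (c s : ℝ) : IsFiniteMeasure (muS c s) := by
  unfold muS
  refine isFiniteMeasure_withDensity_ofReal ?_
  refine HasFiniteIntegral.of_bounded (C := |1 / ZZ ^ 2| + |ep * gE (10 * s) / ZZ ^ 2|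
    + |ep * gE (10 * c) / ZZ ^ 2| + |ep ^ 2 / 2 * gE (10 * (c - s)) / ZZ ^ 2|
    + |ep ^ 2 / 2 * gE (10 * (c + s)) / ZZ ^ 2|)
    (Filter.Eventually.of_forall fun x => ?_)
  rw [Real.norm_eq_abs]
  exact trig_bound _ _ _ _ _ _ _ _ _ _

lemma isProb_of_charFun (μ : Measure ℝ) [IsFiniteMeasure μ] (h : charFun μ 0 = 1) :
    IsProbabilityMeasure μ := by
  rw [charFun_zero] at h
  constructor
  have h2 : μ.real Set.univ = 1 := by exact_mod_cast h
  rw [← ENNReal.ofReal_one, ← h2, Measure.real, ENNReal.ofReal_toReal (measure_ne_top _ _)]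

instance : IsProbabilityMeasure muX := by
  apply isProb_of_charFun
  rw [charFun_muX]
  have : (gE 0 + ep * ((gE (0 + 10) + gE (0 - 10)) / 2)) / ZZ = 1 := by
    rw [show (0:ℝ) - 10 = -10 by ring, gE_neg, gE_zero, zero_add]
    have hz := ZZ_pos.ne'
    rw [div_eq_one_iff_eq hz]
    unfold ZZ; ring
  rw [this]; simp

/-- The law of `c X + s Y` for independent `X`, `Y` with law `muX`. -/
lemma map_eq_muS {Ω : Type} [MeasurableSpace Ω] (P : Measure Ω) [IsProbabilityMeasure P]
    (X Y : Ω → ℝ) (hX : Measurable X) (hY : Measurable Y) (hXY : IndepFun X Y P)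
    (lX : P.map X = muX) (lY : P.map Y = muX) (c s : ℝ) (h : c ^ 2 + s ^ 2 = 1) :
    P.map (fun w => c * X w + s * Y w) = muS c s := by
  have hm : Measurable (fun w => c * X w + s * Y w) := by fun_prop
  have : IsProbabilityMeasure (P.map (fun w => c * X w + s * Y w)) :=
    Measure.isProbabilityMeasure_map hm.aemeasurable
  apply Measure.ext_of_charFun
  have hi : IndepFun (fun w => c * X w) (fun w => s * Y w) P :=
    hXY.comp (measurable_const_mul c) (measurable_const_mul s)
  rw [hi.charFun_map_fun_add_eq_mul (by fun_prop) (by fun_prop)]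
  ext t
  rw [Pi.mul_apply, charFun_map_mul_comp (by fun_prop), charFun_map_mul_comp (by fun_prop),
    lX, lY, charFun_mul c s t h]

end Pool.Agent.H95R3.EntW
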