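import Pool.Agent.H95R3.EntWB

/-!
Entropy of weighted sums: entropy formula and comparison of the two directions.
-/

set_option autoImplicit false

open MeasureTheory ProbabilityTheory Real

namespace Pool.Agent.H95R3.EntW

lemma integrable_bdd {f : ℝ → ℝ} (hc : Continuous f) (C : ℝ) (hb : ∀ x, |f x| ≤ C) :
    Integrable f gam :=
  Integrable.of_bound hc.aestronglyMeasurable C (Filter.Eventually.of_forall hb)

lemma withDensity_eq (R : ℝ → ℝ) (hR : Continuous R) :
    gam.withDensity (fun x => ENNReal.ofReal (R x))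
      = volume.withDensity (fun x => ENNReal.ofReal (gaussianPDFReal 0 1 x * R x)) := by
  unfold gam
  rw [gaussianReal_of_var_ne_zero 0 one_ne_zero,
    ← withDensity_mul volume (measurable_gaussianPDF 0 1) hR.measurable.ennreal_ofReal]
  congr 1
  ext x
  simp only [Pi.mul_apply, gaussianPDF]
  rw [ENNReal.ofReal_mul (gaussianPDFReal_nonneg 0 1 x)]

lemma log_pdf (x : ℝ) : Real.log (gaussianPDFReal 0 1 x)
    = -(1 / 2 * Real.log (2 * Real.pi) + x ^ 2 / 2) := by
  unfold gaussianPDFReal
  rw [Real.log_mul (by positivity) (Real.exp_ne_zero _), Real.log_exp, Real.log_inv,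
    Real.log_sqrt (by positivity)]
  simp
  ring

lemma entropy_formula {R : ℝ → ℝ} (hR : Continuous R) (hpos : ∀ x, 0 < R x) (M : ℝ)
    (hM : ∀ x, R x ≤ M) (h1 : ∫ x, R x ∂gam = 1) :
    ∫ x, Real.negMulLog (((gam.withDensity (fun x => ENNReal.ofReal (R x))).rnDeriv
        volume x).toReal)
      = 1 / 2 * Real.log (2 * Real.pi) + 1 / 2 * (∫ x, x ^ 2 * R x ∂gam)
        + ∫ x, Real.negMulLog (R x) ∂gam := by
  have hae : ∀ᵐ x : ℝ, (gam.withDensity (fun x => ENNReal.ofReal (R x))).rnDeriv volume x
      = ENNReal.ofReal (gaussianPDFReal 0 1 x * R x) := by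
    rw [withDensity_eq R hR]
    exact Measure.rnDeriv_withDensity volume
      ((measurable_gaussianPDFReal 0 1).mul hR.measurable).ennreal_ofReal
  have hcalc : ∀ᵐ x : ℝ, Real.negMulLog (((gam.withDensity
      (fun x => ENNReal.ofReal (R x))).rnDeriv volume x).toReal)
      = gaussianPDFReal 0 1 x • (1 / 2 * Real.log (2 * Real.pi) * R x
          + 1 / 2 * (x ^ 2 * R x) + Real.negMulLog (R x)) := by
    filter_upwards [hae] with x hx
    rw [hx, ENNReal.toReal_ofReal (mul_nonneg (gaussianPDFReal_nonneg 0 1 x) (hpos x).le),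
      Real.negMulLog_mul, smul_eq_mul]
    have : Real.negMulLog (gaussianPDFReal 0 1 x)
        = gaussianPDFReal 0 1 x * (1 / 2 * Real.log (2 * Real.pi) + x ^ 2 / 2) := by
      rw [Real.negMulLog, log_pdf]; ring
    rw [this]
    ring
  rw [integral_congr_ae hcalc, ← integral_gaussianReal_eq_integral_smul one_ne_zero]
  have hbR : ∀ x, |R x| ≤ M := fun x => by rw [abs_of_pos (hpos x)]; exact hM x
  have i1 : Integrable R gam := integrable_bdd hR M hbR
  have i2 : Integrable (fun x => x ^ 2 * R x) gam := by
    have h2 : Integrable (fun x : ℝ => x ^ 2) gam := by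
      have := (memLp_id_gaussianReal (μ := 0) (v := 1) 2).integrable_sq
      simpa using this
    exact h2.mul_bdd hR.aestronglyMeasurable (Filter.Eventually.of_forall hbR)
  have i3 : Integrable (fun x => Real.negMulLog (R x)) gam := by
    have hcont : Continuous (fun x => Real.negMulLog (R x)) :=
      Real.continuous_negMulLog.comp hR
    obtain ⟨C, hC⟩ := (isCompact_Icc (a := (0:ℝ)) (b := M)).exists_bound_of_continuousOn
      Real.continuous_negMulLog.continuousOn
    exact integrable_bdd hcont C (fun x => hC (R x) ⟨(hpos x).le, hM x⟩)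
  rw [integral_add, integral_add, integral_const_mul, integral_const_mul, h1, mul_one]
  · exact i1.const_mul _
  · exact i2.const_mul _
  · exact (i1.const_mul _).add (i2.const_mul _)
  · exact i3

lemma int_neg (f : ℝ → ℝ) : ∫ x, f (-x) ∂gam = ∫ x, f x ∂gam := by
  have h : MeasurePreserving (fun x : ℝ => -x) gam gam := by
    refine ⟨measurable_neg, ?_⟩
    have := gaussianReal_map_neg (μ := 0) (v := 1)
    rw [neg_zero] at this
    exact this
  exact h.integral_comp (MeasurableEquiv.neg ℝ).measurableEmbedding f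

lemma RS_even (c s x : ℝ) : RS c s (-x) = RS c s x := by
  unfold RS trig
  simp only [mul_neg, Real.cos_neg]

lemma mean_zero (c s : ℝ) : ∫ x, x * RS c s x ∂gam = 0 := by
  have h := int_neg (fun x => x * RS c s x)
  simp only [RS_even] at h
  have h2 : ∫ x, -x * RS c s x ∂gam = - ∫ x, x * RS c s x ∂gam := by
    rw [← integral_neg]; congr 1; ext x; ring
  rw [h2] at h
  linarith

lemma int_muS (c s : ℝ) (f : ℝ → ℝ) : ∫ x, f x ∂(muS c s) = ∫ x, f x * RS c s x ∂gam := by
  unfold muS
  rw [integral_withDensity_eq_integral_toReal_smul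
    (RS_continuous c s).measurable.ennreal_ofReal
    (Filter.Eventually.of_forall fun x => ENNReal.ofReal_lt_top)]
  refine integral_congr_ae (Filter.Eventually.of_forall fun x => ?_)
  simp only [ENNReal.toReal_ofReal (RS_pos c s x).le, smul_eq_mul]
  ring

lemma memLp_muX : MemLp id 2 muX := by
  unfold muX
  have h := memLp_id_gaussianReal' (μ := 0) (v := 1) 2 (by norm_num)
  have hle : gam.withDensity (fun x => ENNReal.ofReal (RX x))
      ≤ (ENNReal.ofReal (|1 / ZZ| + |ep / ZZ| + |0| + |0| + |0|)) • gam := by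
    rw [← withDensity_const]
    apply withDensity_mono
    refine Filter.Eventually.of_forall fun x => ENNReal.ofReal_le_ofReal ?_
    exact (le_abs_self _).trans (trig_bound _ _ _ _ _ _ _ _ _ _)
  exact h.of_measure_le_smul ENNReal.ofReal_ne_top hle

lemma second_moment (c s : ℝ) (h : c ^ 2 + s ^ 2 = 1) :
    ∫ x, x ^ 2 * RS c s x ∂gam = Var[id; muX] := by
  set P := muX.prod muX with hP
  have hX : P.map Prod.fst = muX := by simp [hP]
  have hY : P.map Prod.snd = muX := by simp [hP]
  have hind : IndepFun (Prod.fst : ℝ × ℝ → ℝ) (Prod.snd : ℝ × ℝ → ℝ) P :=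
    indepFun_prod (X := id) (Y := id) measurable_id measurable_id
  have hS := map_eq_muS P Prod.fst Prod.snd measurable_fst measurable_snd hind hX hY c s h
  have m1 : MemLp (Prod.fst : ℝ × ℝ → ℝ) 2 P := by
    have := memLp_muX
    rw [← hX] at this
    exact (memLp_map_measure_iff aestronglyMeasurable_id measurable_fst.aemeasurable).1 this
  have m2 : MemLp (Prod.snd : ℝ × ℝ → ℝ) 2 P := by
    have := memLp_muX
    rw [← hY] at this
    exact (memLp_map_measure_iff aestronglyMeasurable_id measurable_snd.aemeasurable).1 this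
  have v1 : Var[Prod.fst; P] = Var[id; muX] := by
    rw [← hX, variance_id_map measurable_fst.aemeasurable]
  have v2 : Var[Prod.snd; P] = Var[id; muX] := by
    rw [← hY, variance_id_map measurable_snd.aemeasurable]
  have hi : IndepFun (fun w : ℝ × ℝ => c * w.1) (fun w => s * w.2) P :=
    hind.comp (measurable_const_mul c) (measurable_const_mul s)
  have hv := hi.variance_fun_add (m1.const_mul c) (m2.const_mul s)
  rw [variance_const_mul, variance_const_mul, v1, v2, ← add_mul, h, one_mul] at hv
  have hmeas : Measurable (fun w : ℝ × ℝ => c * w.1 + s * w.2) := by fun_prop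
  have hvS : Var[id; muS c s] = Var[id; muX] := by
    rw [← hv, ← hS, variance_id_map hmeas.aemeasurable]
  have hprob : IsProbabilityMeasure (muS c s) := by
    rw [← hS]; exact Measure.isProbabilityMeasure_map hmeas.aemeasurable
  have mS : MemLp id 2 (muS c s) := by
    rw [← hS]
    exact (memLp_map_measure_iff aestronglyMeasurable_id hmeas.aemeasurable).2
      ((m1.const_mul c).add (m2.const_mul s))
  have := variance_eq_sub mS
  rw [hvS] at this
  have e1 : ∫ x, id x ∂(muS c s) = 0 := by
    rw [int_muS]; exact mean_zero c s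
  have e2 : ∫ x, (id ^ 2 : ℝ → ℝ) x ∂(muS c s) = ∫ x, x ^ 2 * RS c s x ∂gam := by
    rw [int_muS]; rfl
  rw [e1, e2] at this
  rw [this]; ring

end Pool.Agent.H95R3.EntW
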