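import Pool.Agent.H95R3.EntWC

/-!
Entropy of weighted sums: comparison of the two directions.
-/

set_option autoImplicit false

open MeasureTheory ProbabilityTheory Real

namespace Pool.Agent.H95R3.EntW

lemma exp_neg_le (k : ℕ) : Real.exp (-(k : ℝ)) ≤ (1 / 2) ^ k := by
  have h1 : Real.exp (-1) ≤ 1 / 2 := by
    rw [Real.exp_neg, one_div]
    apply inv_anti₀ (by norm_num)
    have := Real.exp_one_gt_d9
    linarith
  calc Real.exp (-(k : ℝ)) = (Real.exp (-1)) ^ k := by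
        rw [← Real.exp_nat_mul]; congr 1; ring
    _ ≤ _ := pow_le_pow_left₀ (Real.exp_pos _).le h1 k

lemma gE_le {t : ℝ} (k : ℕ) (h : (k : ℝ) = t ^ 2 / 2) : gE t ≤ (1 / 2) ^ k := by
  have := exp_neg_le k
  rw [h] at this
  unfold gE
  rwa [neg_div]

lemma US_cont (c s : ℝ) : Continuous (US c s) := by unfold US; fun_prop

/-- upper bound for the first direction -/
lemma US_small (x : ℝ) : |US (4 / 5) (3 / 5) x| ≤ ep ^ 2 / 2 / 3 := by
  have h1 := abs_mul_cos_le (ep * gE (10 * (3 / 5))) (10 * (4 / 5)) x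
    (by unfold ep; have := gE_pos (10 * (3 / 5)); positivity)
  have h2 := abs_mul_cos_le (ep * gE (10 * (4 / 5))) (10 * (3 / 5)) x
    (by unfold ep; have := gE_pos (10 * (4 / 5)); positivity)
  have h3 := abs_mul_cos_le (ep ^ 2 / 2 * gE (10 * (4 / 5 - 3 / 5))) (10 * (4 / 5 + 3 / 5)) x
    (by unfold ep; have := gE_pos (10 * (4 / 5 - 3 / 5)); positivity)
  have h4 := abs_mul_cos_le (ep ^ 2 / 2 * gE (10 * (4 / 5 + 3 / 5))) (10 * (4 / 5 - 3 / 5)) x
    (by unfold ep; have := gE_pos (10 * (4 / 5 + 3 / 5)); positivity)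
  have g1 : gE (10 * (3 / 5)) ≤ (1 / 2) ^ 18 := gE_le 18 (by norm_num)
  have g2 : gE (10 * (4 / 5)) ≤ (1 / 2) ^ 32 := gE_le 32 (by norm_num)
  have g3 : gE (10 * (4 / 5 - 3 / 5)) ≤ (1 / 2) ^ 2 := gE_le 2 (by norm_num)
  have g4 : gE (10 * (4 / 5 + 3 / 5)) ≤ (1 / 2) ^ 98 := gE_le 98 (by norm_num)
  unfold US
  have hsum : |ep * gE (10 * (3 / 5)) * Real.cos (10 * (4 / 5) * x)
      + ep * gE (10 * (4 / 5)) * Real.cos (10 * (3 / 5) * x)
      + ep ^ 2 / 2 * gE (10 * (4 / 5 - 3 / 5)) * Real.cos (10 * (4 / 5 + 3 / 5) * x)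
      + ep ^ 2 / 2 * gE (10 * (4 / 5 + 3 / 5)) * Real.cos (10 * (4 / 5 - 3 / 5) * x)|
      ≤ ep * gE (10 * (3 / 5)) + ep * gE (10 * (4 / 5)) + ep ^ 2 / 2 * gE (10 * (4 / 5 - 3 / 5))
        + ep ^ 2 / 2 * gE (10 * (4 / 5 + 3 / 5)) := by
    refine (abs_add_le _ _).trans (add_le_add ?_ h4)
    refine (abs_add_le _ _).trans (add_le_add ?_ h3)
    exact (abs_add_le _ _).trans (add_le_add h1 h2)
  refine hsum.trans ?_
  unfold ep
  norm_num at g1 g2 g3 g4 ⊢
  linarith

/-- `1 / √2` -/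
noncomputable def rr : ℝ := 1 / Real.sqrt 2

lemma rr_sq : rr ^ 2 = 1 / 2 := by unfold rr; rw [div_pow, Real.sq_sqrt (by norm_num)]; norm_num

lemma US_rr (x : ℝ) : |US rr rr x - ep ^ 2 / 2 * Real.cos (20 * rr * x)|
    ≤ ep ^ 2 / 2 / 1000 := by
  have g1 : gE (10 * rr) ≤ (1 / 2) ^ 25 := gE_le 25 (by rw [mul_pow, rr_sq]; norm_num)
  have g2 : gE (10 * (rr + rr)) ≤ (1 / 2) ^ 100 :=
    gE_le 100 (by rw [show 10 * (rr + rr) = 20 * rr by ring, mul_pow, rr_sq]; norm_num)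
  have e : US rr rr x - ep ^ 2 / 2 * Real.cos (20 * rr * x)
      = 2 * (ep * gE (10 * rr)) * Real.cos (10 * rr * x) + ep ^ 2 / 2 * gE (10 * (rr + rr)) := by
    unfold US
    rw [sub_self, mul_zero, gE_zero, zero_mul, Real.cos_zero,
      show 10 * (rr + rr) * x = 20 * rr * x by ring]
    ring
  rw [e]
  have h1 := abs_mul_cos_le (2 * (ep * gE (10 * rr))) (10 * rr) x
    (by unfold ep; have := gE_pos (10 * rr); positivity)
  have hp : 0 ≤ ep ^ 2 / 2 * gE (10 * (rr + rr)) := by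
    have := gE_pos (10 * (rr + rr)); unfold ep; positivity
  refine (abs_add_le _ _).trans ?_
  rw [abs_of_nonneg hp]
  refine (add_le_add_left h1 _).trans ?_
  unfold ep
  norm_num at g1 g2 ⊢
  linarith

/-- lower bound for `∫ U_0 ^ 2` -/
lemma int_sq_lower : (ep ^ 2 / 2) ^ 2 * (2 / 5) ≤ ∫ x, US rr rr x ^ 2 ∂gam := by
  have hcos : ∫ x, Real.cos (20 * rr * x) ^ 2 ∂gam = 1 / 2 + gE (40 * rr) / 2 := by
    have h : ∀ x : ℝ, Real.cos (20 * rr * x) ^ 2 = 1 / 2 + Real.cos (40 * rr * x) / 2 := by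
      intro x
      rw [Real.cos_sq]; congr 2; ring_nf
    simp_rw [h]
    have hi : Integrable (fun x : ℝ => Real.cos (40 * rr * x) / 2) gam :=
      (integrable_bdd (by fun_prop) 1 (fun x => Real.abs_cos_le_one _)).div_const 2
    have hs : ∫ x : ℝ, (1 / 2 + Real.cos (40 * rr * x) / 2) ∂gam
        = ∫ _x : ℝ, (1 / 2 : ℝ) ∂gam + ∫ x : ℝ, Real.cos (40 * rr * x) / 2 ∂gam :=
      integral_add (integrable_const _) hi
    rw [hs, integral_div (2 : ℝ) (fun x : ℝ => Real.cos (40 * rr * x)), int_cos]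
    simp
  have hpt : ∀ x, (ep ^ 2 / 2) ^ 2 * Real.cos (20 * rr * x) ^ 2 - (ep ^ 2 / 2) ^ 2 * (1 / 500)
      ≤ US rr rr x ^ 2 := by
    intro x
    have h := US_rr x
    have hc := Real.abs_cos_le_one (20 * rr * x)
    set q := Real.cos (20 * rr * x)
    set u := US rr rr x
    have hL : (0:ℝ) < ep ^ 2 / 2 := by unfold ep; norm_num
    set L := ep ^ 2 / 2
    obtain ⟨e, he⟩ : ∃ e, u = L * q + e := ⟨u - L * q, by ring⟩
    rw [he] at h ⊢
    rw [show L * q + e - L * q = e by ring] at h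
    have hqe : |q * e| ≤ L / 1000 := by
      rw [abs_mul]
      calc |q| * |e| ≤ 1 * (L / 1000) := mul_le_mul hc h (abs_nonneg _) (by norm_num)
        _ = _ := one_mul _
    have := (abs_le.1 hqe).1
    nlinarith [sq_nonneg e]
  have hi1 : Integrable (fun x => (ep ^ 2 / 2) ^ 2 * Real.cos (20 * rr * x) ^ 2) gam := by
    refine (integrable_bdd (by fun_prop) 1 (fun x => ?_)).const_mul _
    rw [abs_pow]
    exact pow_le_one₀ (abs_nonneg _) (Real.abs_cos_le_one _)
  have hi2 : Integrable (fun x => US rr rr x ^ 2) gam := by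
    have hcc := US_cont rr rr
    refine integrable_bdd (by fun_prop) 1 (fun x => ?_)
    rw [abs_pow]
    exact pow_le_one₀ (abs_nonneg _) ((US_abs_le rr rr x).trans (by norm_num))
  have hle := integral_mono (hi1.sub (integrable_const _)) hi2 hpt
  simp only [Pi.sub_apply] at hle
  rw [integral_sub hi1 (integrable_const _), integral_const_mul, hcos] at hle
  simp only [integral_const, probReal_univ, smul_eq_mul, one_mul] at hle
  have hg := gE_pos (40 * rr)
  have hL : (0:ℝ) < (ep ^ 2 / 2) ^ 2 := by unfold ep; norm_num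
  nlinarith [mul_pos hL hg]

lemma negMulLog_lower {u : ℝ} (hu : |u| ≤ 1 / 50) : -u - u ^ 2 ≤ Real.negMulLog (1 + u) := by
  have h := abs_le.1 hu
  have hp : (0:ℝ) < 1 + u := by linarith
  have hl := Real.log_le_sub_one_of_pos hp
  rw [Real.negMulLog]
  nlinarith

lemma negMulLog_upper {u : ℝ} (hu : |u| ≤ 1 / 50) :
    Real.negMulLog (1 + u) ≤ -u - u ^ 2 / 3 := by
  have h := abs_le.1 hu
  have hp : (0:ℝ) < 1 + u := by linarith
  have hl := Real.abs_log_sub_add_sum_range_le (x := -u) (by rw [abs_neg]; linarith) 2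
  rw [Finset.sum_range_succ, Finset.sum_range_one] at hl
  rw [abs_neg, sub_neg_eq_add] at hl
  have h3 : |u| ^ (2 + 1) / (1 - |u|) ≤ u ^ 2 / 49 := by
    rw [div_le_div_iff₀ (by linarith) (by norm_num)]
    have : |u| ^ (2 + 1) = u ^ 2 * |u| := by rw [pow_succ, sq_abs]
    rw [this]
    nlinarith [sq_nonneg u, mul_nonneg (sq_nonneg u) (abs_nonneg u)]
  have h4 := (abs_le.1 (hl.trans h3)).1
  norm_num at h4
  have h5 : u - u ^ 2 / 2 - u ^ 2 / 49 ≤ Real.log (1 + u) := by linarith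
  rw [Real.negMulLog]
  have h6 := mul_le_mul_of_nonneg_left h5 hp.le
  have : 0 ≤ u ^ 2 * (1 / 50 - u) := mul_nonneg (sq_nonneg u) (by linarith)
  have : 0 ≤ u ^ 2 * (1 / 50 + u) := mul_nonneg (sq_nonneg u) (by linarith)
  nlinarith

lemma int_US (c s : ℝ) (h : c ^ 2 + s ^ 2 = 1) : ∫ x, US c s x ∂gam = ZZ ^ 2 - 1 := by
  have hh := charFun_mul c s 0 h
  rw [mul_zero, mul_zero] at hh
  have h1 : charFun muX 0 = 1 := by rw [charFun_zero]; simp
  rw [h1, one_mul] at hh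
  unfold muS at hh
  rw [charFun_withDensity (RS_continuous c s) (fun x => (RS_pos c s x).le)] at hh
  simp only [Complex.ofReal_zero, zero_mul, Complex.exp_zero, one_mul] at hh
  have h2 : (∫ x, (RS c s x : ℂ) ∂gam) = ((∫ x, RS c s x ∂gam : ℝ) : ℂ) := integral_ofReal
  rw [h2] at hh
  have h3 : ∫ x, RS c s x ∂gam = 1 := by
    apply Complex.ofReal_injective; rw [← hh]; simp
  simp_rw [RS_eq] at h3
  rw [integral_div, integral_add (integrable_const _)
    (integrable_bdd (US_cont c s) _ (US_abs_le c s))] at h3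
  simp only [integral_const, probReal_univ, smul_eq_mul, one_mul] at h3
  have hz : ZZ ^ 2 ≠ 0 := by have := ZZ_pos; positivity
  rw [div_eq_one_iff_eq hz] at h3
  linarith

lemma int_RS (c s : ℝ) (h : c ^ 2 + s ^ 2 = 1) : ∫ x, RS c s x ∂gam = 1 := by
  simp_rw [RS_eq]
  rw [integral_div, integral_add (integrable_const _)
    (integrable_bdd (US_cont c s) _ (US_abs_le c s)), int_US c s h]
  simp only [integral_const, probReal_univ, smul_eq_mul, one_mul]
  have hz : ZZ ^ 2 ≠ 0 := by have := ZZ_pos; positivity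
  rw [div_eq_one_iff_eq hz]
  ring

lemma integrable_nml (c s : ℝ) : Integrable (fun x => Real.negMulLog (1 + US c s x)) gam := by
  have hcont : Continuous (fun x => Real.negMulLog (1 + US c s x)) :=
    Real.continuous_negMulLog.comp (continuous_const.add (US_cont c s))
  obtain ⟨C, hC⟩ := (isCompact_Icc (a := (0:ℝ)) (b := 2)).exists_bound_of_continuousOn
    Real.continuous_negMulLog.continuousOn
  refine integrable_bdd hcont C (fun x => hC _ ⟨?_, ?_⟩)
  · have := (abs_le.1 (US_abs_le c s x)).1; linarith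
  · have := (abs_le.1 (US_abs_le c s x)).2; linarith

/-- the entropy part -/
lemma int_nml_RS (c s : ℝ) (h : c ^ 2 + s ^ 2 = 1) :
    ∫ x, Real.negMulLog (RS c s x) ∂gam
      = Real.log (ZZ ^ 2) + 1 / ZZ ^ 2 * ∫ x, Real.negMulLog (1 + US c s x) ∂gam := by
  have hz : ZZ ^ 2 ≠ 0 := by have := ZZ_pos; positivity
  have hpt : ∀ x, Real.negMulLog (RS c s x)
      = Real.log (ZZ ^ 2) * RS c s x + 1 / ZZ ^ 2 * Real.negMulLog (1 + US c s x) := by
    intro x
    have h1 : RS c s x = (1 / ZZ ^ 2) * (1 + US c s x) := by rw [RS_eq]; ring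
    have h2 : Real.negMulLog (1 / ZZ ^ 2) = 1 / ZZ ^ 2 * Real.log (ZZ ^ 2) := by
      rw [Real.negMulLog, one_div, Real.log_inv]; ring
    rw [h1, Real.negMulLog_mul, h2]
    ring
  simp_rw [hpt]
  rw [integral_add, integral_const_mul, integral_const_mul, int_RS c s h, mul_one]
  · refine (integrable_bdd (RS_continuous c s) _ (fun x => trig_bound _ _ _ _ _ _ _ _ _ _)).const_mul _
  · exact (integrable_nml c s).const_mul _

lemma key_ineq : ∫ x, Real.negMulLog (1 + US rr rr x) ∂gam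
    < ∫ x, Real.negMulLog (1 + US (4 / 5) (3 / 5) x) ∂gam := by
  have hrr : rr ^ 2 + rr ^ 2 = 1 := by rw [rr_sq]; norm_num
  have h45 : (4 / 5 : ℝ) ^ 2 + (3 / 5) ^ 2 = 1 := by norm_num
  have hup : ∫ x, Real.negMulLog (1 + US rr rr x) ∂gam
      ≤ -(ZZ ^ 2 - 1) - (∫ x, US rr rr x ^ 2 ∂gam) / 3 := by
    have hi2 : Integrable (fun x => US rr rr x ^ 2) gam := by
      have hcc := US_cont rr rr
      refine integrable_bdd (by fun_prop) 1 (fun x => ?_)
      rw [abs_pow]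
      exact pow_le_one₀ (abs_nonneg _) ((US_abs_le rr rr x).trans (by norm_num))
    have hi1 : Integrable (fun x => US rr rr x) gam :=
      integrable_bdd (US_cont rr rr) _ (US_abs_le rr rr)
    have hi1n : Integrable (fun x => -US rr rr x) gam := hi1.neg
    have hi3 : Integrable (fun x => US rr rr x ^ 2 / 3) gam := hi2.div_const 3
    have hs : ∫ x, (-US rr rr x - US rr rr x ^ 2 / 3) ∂gam
        = ∫ x, -US rr rr x ∂gam - ∫ x, US rr rr x ^ 2 / 3 ∂gam := integral_sub hi1n hi3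
    rw [← int_US rr rr hrr, ← integral_neg, ← integral_div, ← hs]
    exact integral_mono (integrable_nml rr rr) (hi1n.sub hi3)
      (fun x => negMulLog_upper (US_abs_le rr rr x))
  have hlow : -(ZZ ^ 2 - 1) - (ep ^ 2 / 2 / 3) ^ 2
      ≤ ∫ x, Real.negMulLog (1 + US (4 / 5) (3 / 5) x) ∂gam := by
    have hi1 : Integrable (fun x => US (4 / 5) (3 / 5) x) gam :=
      integrable_bdd (US_cont _ _) _ (US_abs_le _ _)
    have hi1n : Integrable (fun x => -US (4 / 5) (3 / 5) x) gam := hi1.neg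
    have e : -(ZZ ^ 2 - 1) - (ep ^ 2 / 2 / 3) ^ 2
        = ∫ x, (-US (4 / 5) (3 / 5) x - (ep ^ 2 / 2 / 3) ^ 2) ∂gam := by
      have hs : ∫ x, (-US (4 / 5) (3 / 5) x - (ep ^ 2 / 2 / 3) ^ 2) ∂gam
          = ∫ x, -US (4 / 5) (3 / 5) x ∂gam - ∫ _x : ℝ, (ep ^ 2 / 2 / 3) ^ 2 ∂gam :=
        integral_sub hi1n (integrable_const _)
      rw [hs, integral_neg, int_US _ _ h45]
      simp
    rw [e]
    refine integral_mono (hi1n.sub (integrable_const _)) (integrable_nml _ _) (fun x => ?_)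
    have h1 := negMulLog_lower (US_abs_le (4 / 5) (3 / 5) x)
    have h2 := US_small x
    have h3 : US (4 / 5) (3 / 5) x ^ 2 ≤ (ep ^ 2 / 2 / 3) ^ 2 := by
      rw [← sq_abs]
      exact pow_le_pow_left₀ (abs_nonneg _) h2 2
    simp only [Pi.sub_apply, Pi.neg_apply]
    linarith
  have hsq := int_sq_lower
  have hL : (0:ℝ) < (ep ^ 2 / 2) ^ 2 := by unfold ep; norm_num
  nlinarith

end Pool.Agent.H95R3.EntW
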