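import Pool.Agent.H95R3.EntWD

/-!
Entropy of weighted sums: log-concavity of the density.
-/

set_option autoImplicit false

open MeasureTheory ProbabilityTheory Real

namespace Pool.Agent.H95R3.EntW

/-- logarithm of the unnormalised density -/
noncomputable def kk (x : ℝ) : ℝ := -(x ^ 2) / 2 + Real.log (1 + ep * Real.cos (10 * x))

/-- its derivative -/
noncomputable def kk' (x : ℝ) : ℝ :=
  -x + (ep * (-Real.sin (10 * x) * 10)) / (1 + ep * Real.cos (10 * x))

lemma D_ge (x : ℝ) : 199 / 200 ≤ 1 + ep * Real.cos (10 * x) := by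
  have := Real.neg_one_le_cos (10 * x)
  unfold ep; linarith

lemma hasDerivAt_cos10 (x : ℝ) :
    HasDerivAt (fun x => Real.cos (10 * x)) (-Real.sin (10 * x) * 10) x := by
  have h1 : HasDerivAt (fun x : ℝ => 10 * x) 10 x := by
    simpa using (hasDerivAt_id x).const_mul (10 : ℝ)
  exact h1.cos

lemma hasDerivAt_sin10 (x : ℝ) :
    HasDerivAt (fun x => Real.sin (10 * x)) (Real.cos (10 * x) * 10) x := by
  have h1 : HasDerivAt (fun x : ℝ => 10 * x) 10 x := by
    simpa using (hasDerivAt_id x).const_mul (10 : ℝ)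
  exact h1.sin

lemma hasDerivAt_kk (x : ℝ) : HasDerivAt kk (kk' x) x := by
  have hD : HasDerivAt (fun x => 1 + ep * Real.cos (10 * x)) (ep * (-Real.sin (10 * x) * 10)) x :=
    ((hasDerivAt_cos10 x).const_mul ep).const_add 1
  have hlog := hD.log (by have := D_ge x; linarith)
  have hsq : HasDerivAt (fun x : ℝ => -(x ^ 2) / 2) (-x) x := by
    have := ((hasDerivAt_pow 2 x).neg).div_const 2
    convert! this using 1
    push_cast
    ring
  exact hsq.add hlog

lemma hasDerivAt_kk' (x : ℝ) : HasDerivAt kk'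
    (-1 + ((ep * (-(Real.cos (10 * x) * 10) * 10)) * (1 + ep * Real.cos (10 * x))
      - (ep * (-Real.sin (10 * x) * 10)) * (ep * (-Real.sin (10 * x) * 10)))
        / (1 + ep * Real.cos (10 * x)) ^ 2) x := by
  have hD : HasDerivAt (fun x => 1 + ep * Real.cos (10 * x)) (ep * (-Real.sin (10 * x) * 10)) x :=
    ((hasDerivAt_cos10 x).const_mul ep).const_add 1
  have hN : HasDerivAt (fun x => ep * (-Real.sin (10 * x) * 10))
      (ep * (-(Real.cos (10 * x) * 10) * 10)) x :=
    (((hasDerivAt_sin10 x).neg).mul_const 10).const_mul ep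
  exact (hasDerivAt_id x).neg.add (hN.div hD (by have := D_ge x; linarith))

lemma concave_kk : ConcaveOn ℝ Set.univ kk := by
  have hd : deriv kk = kk' := funext fun x => (hasDerivAt_kk x).deriv
  apply concaveOn_univ_of_deriv2_nonpos
  · exact fun x => (hasDerivAt_kk x).differentiableAt
  · rw [hd]; exact fun x => (hasDerivAt_kk' x).differentiableAt
  · intro x
    simp only [Function.iterate_succ, Function.iterate_zero, Function.comp_apply, id]
    rw [hd, (hasDerivAt_kk' x).deriv]
    have hD := D_ge x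
    have hc := Real.neg_one_le_cos (10 * x)
    have hcs := Real.sin_sq_add_cos_sq (10 * x)
    have hpos : 0 < (1 + ep * Real.cos (10 * x)) ^ 2 := by positivity
    have hle : ((ep * (-(Real.cos (10 * x) * 10) * 10)) * (1 + ep * Real.cos (10 * x))
      - (ep * (-Real.sin (10 * x) * 10)) * (ep * (-Real.sin (10 * x) * 10)))
        / (1 + ep * Real.cos (10 * x)) ^ 2 ≤ 1 := by
      rw [div_le_one hpos]
      have e : (ep * (-(Real.cos (10 * x) * 10) * 10)) * (1 + ep * Real.cos (10 * x))
          - (ep * (-Real.sin (10 * x) * 10)) * (ep * (-Real.sin (10 * x) * 10))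
          = -(100 * ep * (Real.cos (10 * x) + ep)) := by
        linear_combination (-100 * ep ^ 2) * hcs
      rw [e]
      have h2 : (199 / 200 : ℝ) ^ 2 ≤ (1 + ep * Real.cos (10 * x)) ^ 2 :=
        pow_le_pow_left₀ (by norm_num) hD 2
      unfold ep at *
      nlinarith
    linarith

/-- the density of `X` -/
noncomputable def fX (x : ℝ) : ℝ := gaussianPDFReal 0 1 x * RX x

lemma fX_pos (x : ℝ) : 0 < fX x := mul_pos (gaussianPDFReal_pos 0 1 x one_ne_zero) (RX_pos x)

lemma log_fX (x : ℝ) : Real.log (fX x)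
    = kk x + (-(1 / 2 * Real.log (2 * Real.pi)) - Real.log ZZ) := by
  unfold fX
  rw [Real.log_mul (gaussianPDFReal_pos 0 1 x one_ne_zero).ne' (RX_pos x).ne', log_pdf, RX_eq,
    Real.log_div (by have := D_ge x; linarith) ZZ_pos.ne']
  unfold kk
  ring

lemma fX_logconcave (x y t : ℝ) (ht0 : 0 ≤ t) (ht1 : t ≤ 1) :
    fX x ^ t * fX y ^ (1 - t) ≤ fX (t * x + (1 - t) * y) := by
  have hc := concave_kk.2 (Set.mem_univ x) (Set.mem_univ y) ht0 (sub_nonneg.2 ht1) (by ring)
  simp only [smul_eq_mul] at hc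
  rw [Real.rpow_def_of_pos (fX_pos x), Real.rpow_def_of_pos (fX_pos y), ← Real.exp_add,
    ← Real.le_log_iff_exp_le (fX_pos _), log_fX, log_fX, log_fX]
  nlinarith

lemma fX_even (x : ℝ) : fX (-x) = fX x := by
  unfold fX
  rw [RX_eq, RX_eq, show (10 : ℝ) * -x = -(10 * x) by ring, Real.cos_neg]
  congr 1
  unfold gaussianPDFReal
  simp

lemma muX_eq : muX = volume.withDensity (fun x => ENNReal.ofReal (fX x)) := by
  unfold muX
  rw [withDensity_eq RX RX_continuous]
  rfl

lemma fX_continuous : Continuous fX := by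
  unfold fX
  refine Continuous.mul ?_ RX_continuous
  unfold gaussianPDFReal
  fun_prop

lemma lintegral_fX : ∫⁻ x, ENNReal.ofReal (fX x) = 1 := by
  have h : muX Set.univ = 1 := measure_univ
  rw [muX_eq, withDensity_apply _ MeasurableSet.univ, Measure.restrict_univ] at h
  exact h

lemma fX_integrable : Integrable fX := by
  refine ⟨fX_continuous.aestronglyMeasurable, ?_⟩
  rw [hasFiniteIntegral_iff_ofReal (Filter.Eventually.of_forall fun x => (fX_pos x).le),
    lintegral_fX]
  exact ENNReal.one_lt_top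

lemma fX_integral : ∫ x, fX x = 1 := by
  rw [integral_eq_lintegral_of_nonneg_ae (Filter.Eventually.of_forall fun x => (fX_pos x).le)
    fX_continuous.aestronglyMeasurable, lintegral_fX]
  simp

/-- entropy of the two directions -/
lemma entropy_lt :
    ∫ x, Real.negMulLog (((muS rr rr).rnDeriv volume x).toReal)
      < ∫ x, Real.negMulLog (((muS (4 / 5) (3 / 5)).rnDeriv volume x).toReal) := by
  have hrr : rr ^ 2 + rr ^ 2 = 1 := by rw [rr_sq]; norm_num
  have h45 : (4 / 5 : ℝ) ^ 2 + (3 / 5) ^ 2 = 1 := by norm_num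
  unfold muS
  rw [entropy_formula (RS_continuous rr rr) (RS_pos rr rr) _
      (fun x => (le_abs_self _).trans (trig_bound _ _ _ _ _ _ _ _ _ x)) (int_RS _ _ hrr),
    entropy_formula (RS_continuous _ _) (RS_pos _ _) _
      (fun x => (le_abs_self _).trans (trig_bound _ _ _ _ _ _ _ _ _ x)) (int_RS _ _ h45),
    second_moment _ _ hrr, second_moment _ _ h45, int_nml_RS _ _ hrr, int_nml_RS _ _ h45]
  have := key_ineq
  have hz : 0 < 1 / ZZ ^ 2 := by have := ZZ_pos; positivity
  have := mul_lt_mul_of_pos_left this hz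
  linarith

/-- the sample space -/
def Om : Type := Fin 2 → ℝ

noncomputable instance : MeasureSpace Om where
  toMeasurableSpace := inferInstanceAs (MeasurableSpace (Fin 2 → ℝ))
  volume := Measure.pi (fun _ : Fin 2 => muX)

instance : IsProbabilityMeasure (volume : Measure Om) :=
  inferInstanceAs (IsProbabilityMeasure (Measure.pi (fun _ : Fin 2 => muX)))

/-- the coordinates -/
def Xc (i : Fin 2) : Om → ℝ := fun w => w i

lemma Xc_meas (i : Fin 2) : Measurable (Xc i) := measurable_pi_apply i

lemma Xc_indep : iIndepFun Xc (volume : Measure Om) :=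
  iIndepFun_pi (μ := fun _ : Fin 2 => muX) (X := fun _ => id) (fun _ => aemeasurable_id)

lemma Xc_law (i : Fin 2) : (volume : Measure Om).map (Xc i) = muX :=
  (measurePreserving_eval (fun _ : Fin 2 => muX) i).map_eq

end Pool.Agent.H95R3.EntW
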