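import Pool.Agent.Helper734.IB.PL

/-!
One-dimensional Borell-Brascamp-Lieb type inequalities (level set form).
-/

set_option autoImplicit false

open MeasureTheory Set
open scoped ENNReal

namespace Pool.Agent.H95R3.NormK

theorem bm_t {t : ℝ} (t0 : 0 < t) (t1 : t < 1) {A B C : Set ℝ} (hA : MeasurableSet A)
    (hB : MeasurableSet B) (hA' : A.Nonempty) (hB' : B.Nonempty)
    (hC : ∀ x ∈ A, ∀ y ∈ B, t * x + (1 - t) * y ∈ C) :
    ENNReal.ofReal t * volume A + ENNReal.ofReal (1 - t) * volume B ≤ volume C := by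
  have hs : (0:ℝ) < 1 - t := by linarith
  have h1 : volume ((fun x => (2 * t)⁻¹ * x) ⁻¹' A) = ENNReal.ofReal (2 * t) * volume A := by
    rw [Real.volume_preimage_mul_left (by positivity), inv_inv, abs_of_pos (by positivity)]
  have h2 : volume ((fun x => (2 * (1 - t))⁻¹ * x) ⁻¹' B)
      = ENNReal.ofReal (2 * (1 - t)) * volume B := by
    rw [Real.volume_preimage_mul_left (by positivity), inv_inv, abs_of_pos (by positivity)]
  have h := Helper734.IB.bm (A := (fun x => (2 * t)⁻¹ * x) ⁻¹' A)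
    (B := (fun x => (2 * (1 - t))⁻¹ * x) ⁻¹' B) (C := C)
    (measurable_const_mul _ hA) (measurable_const_mul _ hB) ?_ ?_ ?_
  · rw [h1, h2, ENNReal.ofReal_mul (by norm_num), ENNReal.ofReal_mul (by norm_num)] at h
    have e2 : ENNReal.ofReal 2 = 2 := by simp
    rw [e2, mul_assoc, mul_assoc, ← mul_add] at h
    exact (ENNReal.mul_le_mul_iff_right (by norm_num) (by norm_num)).1 h
  · obtain ⟨a, ha⟩ := hA'
    refine ⟨2 * t * a, ?_⟩
    rw [mem_preimage, inv_mul_cancel_left₀ (by positivity)]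
    exact ha
  · obtain ⟨b, hb⟩ := hB'
    refine ⟨2 * (1 - t) * b, ?_⟩
    rw [mem_preimage, inv_mul_cancel_left₀ (by positivity)]
    exact hb
  · intro x hx y hy
    have := hC _ hx _ hy
    have e : t * ((2 * t)⁻¹ * x) + (1 - t) * ((2 * (1 - t))⁻¹ * y) = (x + y) / 2 := by
      field_simp
    rwa [e] at this

/-- normalised one-dimensional inequality -/
theorem bbl_norm {t : ℝ} (t0 : 0 < t) (t1 : t < 1) (f g h : ℝ → ℝ)
    (hf : Measurable f) (hg : Measurable g) (hh : Measurable h)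
    (f0 : ∀ x, 0 ≤ f x) (g0 : ∀ x, 0 ≤ g x) (h0 : ∀ x, 0 ≤ h x)
    (f1 : ∀ x, f x ≤ 1) (g1 : ∀ x, g x ≤ 1)
    (hfs : ∀ s, s < 1 → ∃ x, s < f x) (hgs : ∀ s, s < 1 → ∃ x, s < g x)
    (H : ∀ s, 0 < s → s < 1 → ∀ x y, s < f x → s < g y → s < h (t * x + (1 - t) * y)) :
    ENNReal.ofReal t * (∫⁻ x, ENNReal.ofReal (f x))
      + ENNReal.ofReal (1 - t) * (∫⁻ x, ENNReal.ofReal (g x))
      ≤ ∫⁻ x, ENNReal.ofReal (h x) := by
  rw [lintegral_eq_lintegral_meas_lt volume (Filter.Eventually.of_forall f0) hf.aemeasurable,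
    lintegral_eq_lintegral_meas_lt volume (Filter.Eventually.of_forall g0) hg.aemeasurable,
    lintegral_eq_lintegral_meas_lt volume (Filter.Eventually.of_forall h0) hh.aemeasurable]
  have hm : ∀ k : ℝ → ℝ, Measurable (fun t : ℝ => volume {a : ℝ | t < k a}) := fun k =>
    (Antitone.measurable (fun s t hst => measure_mono (fun a (ha : t < k a) =>
      show s < k a from lt_of_le_of_lt hst ha)))
  rw [← lintegral_const_mul _ (hm f), ← lintegral_const_mul _ (hm g),
    ← lintegral_add_left ((hm f).const_mul _)]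
  refine setLIntegral_mono' measurableSet_Ioi ?_
  intro s hs
  have hs0 : 0 < s := hs
  by_cases hs1 : s < 1
  · exact bm_t t0 t1 (hf measurableSet_Ioi) (hg measurableSet_Ioi) (hfs s hs1) (hgs s hs1)
      (fun x hx y hy => H s hs0 hs1 x y hx hy)
  · push Not at hs1
    have e1 : {a : ℝ | s < f a} = ∅ := by
      ext a; simp; linarith [f1 a]
    have e2 : {a : ℝ | s < g a} = ∅ := by
      ext a; simp; linarith [g1 a]
    simp [e1, e2]

/-- one-dimensional inequality for bounded functions with suprema `a`, `b` -/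
theorem bbl1 {t : ℝ} (t0 : 0 < t) (t1 : t < 1) (f g h : ℝ → ℝ)
    (hf : Measurable f) (hg : Measurable g) (hh : Measurable h)
    (f0 : ∀ x, 0 ≤ f x) (g0 : ∀ x, 0 ≤ g x) (h0 : ∀ x, 0 ≤ h x)
    (a b m : ℝ) (ha : 0 < a) (hb : 0 < b) (hm : 0 < m)
    (f1 : ∀ x, f x ≤ a) (g1 : ∀ x, g x ≤ b)
    (hfs : ∀ s, s < 1 → ∃ x, s * a < f x) (hgs : ∀ s, s < 1 → ∃ x, s * b < g x)
    (H : ∀ s, 0 < s → s < 1 → ∀ x y, s * a < f x → s * b < g y →
      s * m < h (t * x + (1 - t) * y)) :
    ENNReal.ofReal (t / a) * (∫⁻ x, ENNReal.ofReal (f x))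
      + ENNReal.ofReal ((1 - t) / b) * (∫⁻ x, ENNReal.ofReal (g x))
      ≤ ENNReal.ofReal (1 / m) * ∫⁻ x, ENNReal.ofReal (h x) := by
  have hs : (0:ℝ) < 1 - t := by linarith
  have key := bbl_norm t0 t1 (fun x => f x / a) (fun x => g x / b) (fun x => h x / m)
    (hf.div_const _) (hg.div_const _) (hh.div_const _)
    (fun x => div_nonneg (f0 x) ha.le) (fun x => div_nonneg (g0 x) hb.le)
    (fun x => div_nonneg (h0 x) hm.le)
    (fun x => (div_le_one ha).2 (f1 x)) (fun x => (div_le_one hb).2 (g1 x))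
    (fun s hs => by
      obtain ⟨x, hx⟩ := hfs s hs
      exact ⟨x, (lt_div_iff₀ ha).2 hx⟩)
    (fun s hs => by
      obtain ⟨x, hx⟩ := hgs s hs
      exact ⟨x, (lt_div_iff₀ hb).2 hx⟩)
    (fun s hs0 hs1 x y hx hy =>
      (lt_div_iff₀ hm).2 (H s hs0 hs1 x y ((lt_div_iff₀ ha).1 hx) ((lt_div_iff₀ hb).1 hy)))
  have e : ∀ (k : ℝ → ℝ) (c : ℝ), Measurable k → (∀ x, 0 ≤ k x) → 0 < c →
      ∫⁻ x, ENNReal.ofReal (k x / c) = ENNReal.ofReal (1 / c) * ∫⁻ x, ENNReal.ofReal (k x) := by
    intro k c hk hk0 hc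
    rw [← lintegral_const_mul _ hk.ennreal_ofReal]
    refine lintegral_congr fun x => ?_
    rw [← ENNReal.ofReal_mul (by positivity)]
    congr 1; ring
  rw [e f a hf f0 ha, e g b hg g0 hb, e h m hh h0 hm, ← mul_assoc, ← mul_assoc,
    ← ENNReal.ofReal_mul t0.le, ← ENNReal.ofReal_mul hs.le] at key
  rw [show t / a = t * (1 / a) by ring, show (1 - t) / b = (1 - t) * (1 / b) by ring]
  exact key

/-- First step: densities `ψ⁻²` with `ψ` convex. -/
theorem step1 {t : ℝ} (t0 : 0 < t) (t1 : t < 1) (f g h : ℝ → ℝ)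
    (hf : Measurable f) (hg : Measurable g) (hh : Measurable h)
    (f0 : ∀ x, 0 < f x) (g0 : ∀ x, 0 < g x) (h0 : ∀ x, 0 < h x)
    (fb : ∀ x, 1 ≤ f x) (gb : ∀ x, 1 ≤ g x)
    (A B C : Set ℝ) (hA : MeasurableSet A) (hB : MeasurableSet B) (hC : MeasurableSet C)
    (hABC : ∀ x ∈ A, ∀ y ∈ B, t * x + (1 - t) * y ∈ C)
    (hconv : ∀ x y, h (t * x + (1 - t) * y) ≤ t * f x + (1 - t) * g y)
    (IA IB IC : ℝ) (hIA : 0 < IA) (hIB : 0 < IB) (hIC : 0 ≤ IC)
    (eA : ENNReal.ofReal IA = ∫⁻ x, ENNReal.ofReal (A.indicator (fun x => 1 / f x ^ 2) x))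
    (eB : ENNReal.ofReal IB = ∫⁻ x, ENNReal.ofReal (B.indicator (fun x => 1 / g x ^ 2) x))
    (eC : ENNReal.ofReal IC = ∫⁻ x, ENNReal.ofReal (C.indicator (fun x => 1 / h x ^ 2) x)) :
    1 ≤ (t / IA + (1 - t) / IB) * IC := by
  have hs : (0:ℝ) < 1 - t := by linarith
  set F : ℝ → ℝ := A.indicator (fun x => 1 / f x ^ 2) with hF
  set G : ℝ → ℝ := B.indicator (fun x => 1 / g x ^ 2) with hG
  set K : ℝ → ℝ := C.indicator (fun x => 1 / h x ^ 2) with hK
  have mF : Measurable F := (((hf.pow_const 2).const_div 1)).indicator hA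
  have mG : Measurable G := (((hg.pow_const 2).const_div 1)).indicator hB
  have mK : Measurable K := (((hh.pow_const 2).const_div 1)).indicator hC
  have F0 : ∀ x, 0 ≤ F x := fun x => indicator_nonneg (fun y _ => by positivity) x
  have G0 : ∀ x, 0 ≤ G x := fun x => indicator_nonneg (fun y _ => by positivity) x
  have K0 : ∀ x, 0 ≤ K x := fun x => indicator_nonneg (fun y _ => by positivity) x
  have F1 : ∀ x, F x ≤ 1 := fun x => by
    refine indicator_le' (fun y _ => ?_) (fun y _ => zero_le_one) x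
    rw [div_le_one (by have := f0 y; positivity)]
    exact one_le_pow₀ (fb y)
  have G1 : ∀ x, G x ≤ 1 := fun x => by
    refine indicator_le' (fun y _ => ?_) (fun y _ => zero_le_one) x
    rw [div_le_one (by have := g0 y; positivity)]
    exact one_le_pow₀ (gb y)
  have bF : BddAbove (range F) := ⟨1, by rintro _ ⟨x, rfl⟩; exact F1 x⟩
  have bG : BddAbove (range G) := ⟨1, by rintro _ ⟨x, rfl⟩; exact G1 x⟩
  have exF : ∃ x, 0 < F x := by
    by_contra hcon
    push Not at hcon
    have : ∀ x, ENNReal.ofReal (F x) = 0 := fun x => by simp [hcon x]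
    simp only [this, lintegral_zero] at eA
    rw [ENNReal.ofReal_eq_zero] at eA
    linarith
  have exG : ∃ x, 0 < G x := by
    by_contra hcon
    push Not at hcon
    have : ∀ x, ENNReal.ofReal (G x) = 0 := fun x => by simp [hcon x]
    simp only [this, lintegral_zero] at eB
    rw [ENNReal.ofReal_eq_zero] at eB
    linarith
  set a := ⨆ x, F x with ha
  set b := ⨆ x, G x with hb
  have ha0 : 0 < a := by
    obtain ⟨x, hx⟩ := exF
    exact lt_of_lt_of_le hx (le_ciSup bF x)
  have hb0 : 0 < b := by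
    obtain ⟨x, hx⟩ := exG
    exact lt_of_lt_of_le hx (le_ciSup bG x)
  set p := 1 / Real.sqrt a with hp
  set q := 1 / Real.sqrt b with hq
  have p0 : 0 < p := by positivity
  have q0 : 0 < q := by positivity
  have hpa : p ^ 2 = 1 / a := by rw [hp, div_pow, Real.sq_sqrt ha0.le]; norm_num
  have hqb : q ^ 2 = 1 / b := by rw [hq, div_pow, Real.sq_sqrt hb0.le]; norm_num
  have hr0 : 0 < t * p + (1 - t) * q := by positivity
  have key := bbl1 t0 t1 F G K mF mG mK F0 G0 K0 a b (1 / (t * p + (1 - t) * q) ^ 2)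
    ha0 hb0 (by positivity) (fun x => le_ciSup bF x) (fun x => le_ciSup bG x)
    (fun s hs => exists_lt_of_lt_ciSup (by nlinarith))
    (fun s hs => exists_lt_of_lt_ciSup (by nlinarith)) ?_
  · rw [← eA, ← eB, ← eC, ← ENNReal.ofReal_mul (by positivity), ← ENNReal.ofReal_mul (by positivity),
      ← ENNReal.ofReal_mul (by positivity), ← ENNReal.ofReal_add (by positivity) (by positivity),
      ENNReal.ofReal_le_ofReal_iff (by positivity), one_div_one_div] at key
    have hta : t / a = t * p ^ 2 := by rw [hpa]; ring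
    have htb : (1 - t) / b = (1 - t) * q ^ 2 := by rw [hqb]; ring
    rw [hta, htb] at key
    have hw : 0 < t / IA + (1 - t) / IB := by positivity
    have h2 := mul_le_mul_of_nonneg_left key hw.le
    have h3 : (t * p + (1 - t) * q) ^ 2
        ≤ (t / IA + (1 - t) / IB) * (t * p ^ 2 * IA + (1 - t) * q ^ 2 * IB) := by
      have e : (t / IA + (1 - t) / IB) * (t * p ^ 2 * IA + (1 - t) * q ^ 2 * IB)
          = (t * p + (1 - t) * q) ^ 2
            + t * (1 - t) * ((p * IA - q * IB) ^ 2 / (IA * IB)) := by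
        field_simp
        ring
      rw [e]
      have : 0 ≤ t * (1 - t) * ((p * IA - q * IB) ^ 2 / (IA * IB)) := by positivity
      linarith
    have h4 := h3.trans h2
    have h5 : (t * p + (1 - t) * q) ^ 2 * 1
        ≤ (t * p + (1 - t) * q) ^ 2 * ((t / IA + (1 - t) / IB) * IC) := by
      calc _ = (t * p + (1 - t) * q) ^ 2 := mul_one _
        _ ≤ _ := h4
        _ = _ := by ring
    exact le_of_mul_le_mul_left h5 (by positivity)
  · intro s hs0 hs1 x y hx hy
    have hsq : 0 < Real.sqrt s := Real.sqrt_pos.2 hs0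
    have hx0 : 0 < F x := lt_trans (by positivity) hx
    have hy0 : 0 < G y := lt_trans (by positivity) hy
    have xA : x ∈ A := by
      by_contra hn
      rw [hF, indicator_of_notMem hn] at hx0
      exact lt_irrefl _ hx0
    have yB : y ∈ B := by
      by_contra hn
      rw [hG, indicator_of_notMem hn] at hy0
      exact lt_irrefl _ hy0
    have Fx : F x = 1 / f x ^ 2 := indicator_of_mem xA _
    have Gy : G y = 1 / g y ^ 2 := indicator_of_mem yB _
    rw [Fx] at hx
    rw [Gy] at hy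
    have fx0 := f0 x
    have gy0 := g0 y
    have hfx : f x * Real.sqrt s < p := by
      apply lt_of_pow_lt_pow_left₀ 2 p0.le
      rw [mul_pow, Real.sq_sqrt hs0.le, hpa, lt_div_iff₀ ha0]
      rw [lt_div_iff₀ (by positivity)] at hx
      linarith
    have hgy : g y * Real.sqrt s < q := by
      apply lt_of_pow_lt_pow_left₀ 2 q0.le
      rw [mul_pow, Real.sq_sqrt hs0.le, hqb, lt_div_iff₀ hb0]
      rw [lt_div_iff₀ (by positivity)] at hy
      linarith
    have hK' : K (t * x + (1 - t) * y) = 1 / h (t * x + (1 - t) * y) ^ 2 :=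
      indicator_of_mem (hABC x xA y yB) _
    rw [hK']
    have hz0 := h0 (t * x + (1 - t) * y)
    have hz := hconv x y
    set z := h (t * x + (1 - t) * y)
    have hzs : z * Real.sqrt s < t * p + (1 - t) * q := by
      calc z * Real.sqrt s ≤ (t * f x + (1 - t) * g y) * Real.sqrt s := by gcongr
        _ = t * (f x * Real.sqrt s) + (1 - t) * (g y * Real.sqrt s) := by ring
        _ < t * p + (1 - t) * q := by gcongr
    rw [mul_one_div, div_lt_div_iff₀ (by positivity) (by positivity), one_mul]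
    have h6 : (z * Real.sqrt s) ^ 2 < (t * p + (1 - t) * q) ^ 2 :=
      pow_lt_pow_left₀ hzs (by positivity) (by norm_num)
    rw [mul_pow, Real.sq_sqrt hs0.le] at h6
    linarith

/-- Second step: harmonic mean to minimum. -/
theorem step2 {t : ℝ} (t0 : 0 < t) (t1 : t < 1) (f g h : ℝ → ℝ)
    (hf : Measurable f) (hg : Measurable g) (hh : Measurable h)
    (f0 : ∀ x, 0 ≤ f x) (g0 : ∀ x, 0 ≤ g x) (h0 : ∀ x, 0 ≤ h x)
    (M : ℝ) (fb : ∀ x, f x ≤ M) (gb : ∀ x, g x ≤ M)
    (H : ∀ x y, 0 < f x → 0 < g y → 1 ≤ (t / f x + (1 - t) / g y) * h (t * x + (1 - t) * y)) :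
    min (∫⁻ x, ENNReal.ofReal (f x)) (∫⁻ x, ENNReal.ofReal (g x))
      ≤ ∫⁻ x, ENNReal.ofReal (h x) := by
  have hs : (0:ℝ) < 1 - t := by linarith
  by_cases exF : ∃ x, 0 < f x
  swap
  · push Not at exF
    have : ∀ x, ENNReal.ofReal (f x) = 0 := fun x => by simp [exF x]
    simp [this]
  by_cases exG : ∃ x, 0 < g x
  swap
  · push Not at exG
    have : ∀ x, ENNReal.ofReal (g x) = 0 := fun x => by simp [exG x]
    simp [this]
  have bF : BddAbove (range f) := ⟨M, by rintro _ ⟨x, rfl⟩; exact fb x⟩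
  have bG : BddAbove (range g) := ⟨M, by rintro _ ⟨x, rfl⟩; exact gb x⟩
  set a := ⨆ x, f x with ha
  set b := ⨆ x, g x with hb
  have ha0 : 0 < a := by
    obtain ⟨x, hx⟩ := exF
    exact lt_of_lt_of_le hx (le_ciSup bF x)
  have hb0 : 0 < b := by
    obtain ⟨x, hx⟩ := exG
    exact lt_of_lt_of_le hx (le_ciSup bG x)
  have hw : 0 < t / a + (1 - t) / b := by positivity
  have key := bbl1 t0 t1 f g h hf hg hh f0 g0 h0 a b (1 / (t / a + (1 - t) / b))
    ha0 hb0 (by positivity) (fun x => le_ciSup bF x) (fun x => le_ciSup bG x)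
    (fun s hs => exists_lt_of_lt_ciSup (by nlinarith))
    (fun s hs => exists_lt_of_lt_ciSup (by nlinarith)) ?_
  · rw [one_div_one_div] at key
    set X := ∫⁻ x, ENNReal.ofReal (f x)
    set Y := ∫⁻ x, ENNReal.ofReal (g x)
    have h1 : ENNReal.ofReal (t / a + (1 - t) / b) * min X Y
        ≤ ENNReal.ofReal (t / a + (1 - t) / b) * ∫⁻ x, ENNReal.ofReal (h x) := by
      refine le_trans ?_ key
      rw [ENNReal.ofReal_add (by positivity) (by positivity), add_mul]
      gcongr
      · exact min_le_left _ _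
      · exact min_le_right _ _
    exact (ENNReal.mul_le_mul_iff_right (by simpa using hw) ENNReal.ofReal_ne_top).1 h1
  · intro s hs0 hs1 x y hx hy
    have hx0 : 0 < f x := lt_trans (by positivity) hx
    have hy0 : 0 < g y := lt_trans (by positivity) hy
    have h1 := H x y hx0 hy0
    have h2 : s * (t / f x + (1 - t) / g y) < t / a + (1 - t) / b := by
      have e1 : s * (t / f x) < t / a := by
        rw [← mul_div_assoc, div_lt_div_iff₀ hx0 ha0]
        nlinarith
      have e2 : s * ((1 - t) / g y) < (1 - t) / b := by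
        rw [← mul_div_assoc, div_lt_div_iff₀ hy0 hb0]
        nlinarith
      linarith
    rw [mul_one_div, div_lt_iff₀ hw]
    have hz := h0 (t * x + (1 - t) * y)
    set z := h (t * x + (1 - t) * y)
    have hz0 : 0 < z := by
      rcases hz.lt_or_eq with h | h
      · exact h
      · rw [← h, mul_zero] at h1; linarith
    calc s ≤ s * ((t / f x + (1 - t) / g y) * z) := by nlinarith
      _ = s * (t / f x + (1 - t) / g y) * z := by ring
      _ < (t / a + (1 - t) / b) * z := by gcongr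
      _ = z * (t / a + (1 - t) / b) := by ring

end Pool.Agent.H95R3.NormK
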