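import Pool.Agent.H95R3.NormA

/-!
The planar measure with density `ψ⁻²`, `ψ(x,y) = max(1,|x|,y²)`, satisfies the minimum inequality.
-/

set_option autoImplicit false

open MeasureTheory Set
open scoped ENNReal

namespace Pool.Agent.H95R3.NormK

/-- `ψ(x,y) = max(1,|x|,y²)` -/
noncomputable def psi (x y : ℝ) : ℝ := max 1 (max |x| (y ^ 2))

lemma psi_ge_one (x y : ℝ) : 1 ≤ psi x y := le_max_left _ _

lemma psi_pos (x y : ℝ) : 0 < psi x y := lt_of_lt_of_le one_pos (psi_ge_one x y)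

lemma psi_ge_abs (x y : ℝ) : |x| ≤ psi x y := (le_max_left _ _).trans (le_max_right _ _)

lemma psi_ge_sq (x y : ℝ) : y ^ 2 ≤ psi x y := (le_max_right _ _).trans (le_max_right _ _)

lemma psi_cont : Continuous (fun p : ℝ × ℝ => psi p.1 p.2) := by
  unfold psi; fun_prop

lemma psi_convex {t : ℝ} (t0 : 0 ≤ t) (t1 : t ≤ 1) (x0 x1 y0 y1 : ℝ) :
    psi (t * x0 + (1 - t) * x1) (t * y0 + (1 - t) * y1)
      ≤ t * psi x0 y0 + (1 - t) * psi x1 y1 := by
  have hs : 0 ≤ 1 - t := by linarith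
  have a1 := psi_ge_one x0 y0
  have a2 := psi_ge_one x1 y1
  have b1 := psi_ge_abs x0 y0
  have b2 := psi_ge_abs x1 y1
  have c1 := psi_ge_sq x0 y0
  have c2 := psi_ge_sq x1 y1
  conv_lhs => unfold psi
  refine max_le ?_ (max_le ?_ ?_)
  · nlinarith
  · calc |t * x0 + (1 - t) * x1| ≤ |t * x0| + |(1 - t) * x1| := abs_add_le _ _
      _ = t * |x0| + (1 - t) * |x1| := by rw [abs_mul, abs_mul, abs_of_nonneg t0, abs_of_nonneg hs]
      _ ≤ _ := by gcongr
  · calc (t * y0 + (1 - t) * y1) ^ 2 ≤ t * y0 ^ 2 + (1 - t) * y1 ^ 2 := by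
          nlinarith [mul_nonneg (mul_nonneg t0 hs) (sq_nonneg (y0 - y1))]
      _ ≤ _ := by gcongr

lemma psi_neg (x y : ℝ) : psi (-x) (-y) = psi x y := by
  unfold psi; rw [abs_neg, neg_sq]

/-- the density `ψ⁻²` -/
noncomputable def den (x y : ℝ) : ℝ := 1 / psi x y ^ 2

lemma den_pos (x y : ℝ) : 0 < den x y := by
  have := psi_pos x y; unfold den; positivity

lemma den_cont : Continuous (fun p : ℝ × ℝ => den p.1 p.2) := by
  unfold den
  exact continuous_const.div (psi_cont.pow 2) (fun p => by have := psi_pos p.1 p.2; positivity)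

lemma den_le (x y : ℝ) : den x y ≤ 2 * (1 + y ^ 2)⁻¹ := by
  have h1 := psi_ge_one x y
  have h2 := psi_ge_sq x y
  have h3 := psi_pos x y
  unfold den
  rw [← div_eq_mul_inv, div_le_div_iff₀ (by positivity) (by positivity)]
  nlinarith

lemma lintegral_section_ne_top (x : ℝ) (S : Set ℝ) :
    ∫⁻ y, ENNReal.ofReal (S.indicator (fun y => den x y) y)
      ≤ ENNReal.ofReal (∫ y : ℝ, 2 * (1 + y ^ 2)⁻¹) := by
  rw [ofReal_integral_eq_lintegral_ofReal (integrable_inv_one_add_sq.const_mul 2)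
    (Filter.Eventually.of_forall fun y => by positivity)]
  refine lintegral_mono fun y => ENNReal.ofReal_le_ofReal ?_
  refine indicator_le' (fun z _ => den_le x z) (fun z _ => by positivity) y

/-- the unnormalised planar measure -/
noncomputable def nu : Measure (ℝ × ℝ) :=
  (volume : Measure (ℝ × ℝ)).withDensity (fun p => ENNReal.ofReal (den p.1 p.2))

lemma nu_apply (A : Set (ℝ × ℝ)) (hA : MeasurableSet A) :
    nu A = ∫⁻ x, ∫⁻ y, ENNReal.ofReal ((Prod.mk x ⁻¹' A).indicator (fun y => den x y) y) := by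
  unfold nu
  rw [withDensity_apply _ hA, ← lintegral_indicator hA, Measure.volume_eq_prod, lintegral_prod]
  · refine lintegral_congr fun x => lintegral_congr fun y => ?_
    by_cases h : (x, y) ∈ A
    · rw [indicator_of_mem h, indicator_of_mem (show y ∈ Prod.mk x ⁻¹' A from h)]
    · rw [indicator_of_notMem h, indicator_of_notMem (show y ∉ Prod.mk x ⁻¹' A from h)]
      simp
  · exact (den_cont.measurable.ennreal_ofReal.indicator hA).aemeasurable

/-- the section integral -/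
noncomputable def secI (A : Set (ℝ × ℝ)) (x : ℝ) : ℝ :=
  (∫⁻ y, ENNReal.ofReal ((Prod.mk x ⁻¹' A).indicator (fun y => den x y) y)).toReal

lemma secI_nonneg (A : Set (ℝ × ℝ)) (x : ℝ) : 0 ≤ secI A x := ENNReal.toReal_nonneg

lemma secI_ofReal (A : Set (ℝ × ℝ)) (x : ℝ) : ENNReal.ofReal (secI A x)
    = ∫⁻ y, ENNReal.ofReal ((Prod.mk x ⁻¹' A).indicator (fun y => den x y) y) := by
  unfold secI
  exact ENNReal.ofReal_toReal (ne_top_of_le_ne_top ENNReal.ofReal_ne_top
    (lintegral_section_ne_top x _))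

lemma secI_le (A : Set (ℝ × ℝ)) (x : ℝ) : secI A x ≤ ∫ y : ℝ, 2 * (1 + y ^ 2)⁻¹ := by
  have h0 : 0 ≤ ∫ y : ℝ, 2 * (1 + y ^ 2)⁻¹ := integral_nonneg fun y => by positivity
  rw [← ENNReal.ofReal_le_ofReal_iff h0, secI_ofReal]
  exact lintegral_section_ne_top x _

lemma secI_meas (A : Set (ℝ × ℝ)) (hA : MeasurableSet A) : Measurable (secI A) := by
  unfold secI
  refine Measurable.ennreal_toReal ?_
  have h : Measurable (fun p : ℝ × ℝ => ENNReal.ofReal (A.indicator (fun p => den p.1 p.2) p)) :=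
    (den_cont.measurable.indicator hA).ennreal_ofReal
  have h2 : Measurable (fun x : ℝ => ∫⁻ y : ℝ, ENNReal.ofReal (A.indicator
      (fun p : ℝ × ℝ => den p.1 p.2) (x, y))) := h.lintegral_prod_right'
  exact h2

theorem min2D {t : ℝ} (t0 : 0 < t) (t1 : t < 1) (A B C : Set (ℝ × ℝ)) (hA : MeasurableSet A)
    (hB : MeasurableSet B) (hC : MeasurableSet C)
    (hABC : ∀ p ∈ A, ∀ q ∈ B, (t * p.1 + (1 - t) * q.1, t * p.2 + (1 - t) * q.2) ∈ C) :
    min (nu A) (nu B) ≤ nu C := by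
  rw [nu_apply A hA, nu_apply B hB, nu_apply C hC]
  simp_rw [← secI_ofReal]
  refine step2 t0 t1 (secI A) (secI B) (secI C) (secI_meas A hA) (secI_meas B hB) (secI_meas C hC)
    (secI_nonneg A) (secI_nonneg B) (secI_nonneg C) _ (secI_le A) (secI_le B) ?_
  intro x0 x1 hx0 hx1
  have mm : ∀ x : ℝ, Measurable (fun y => psi x y) := fun x =>
    (psi_cont.comp (by fun_prop : Continuous fun y : ℝ => (x, y))).measurable
  exact step1 t0 t1 (fun y => psi x0 y) (fun y => psi x1 y)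
    (fun y => psi (t * x0 + (1 - t) * x1) y) (mm _) (mm _) (mm _)
    (fun y => psi_pos _ _) (fun y => psi_pos _ _) (fun y => psi_pos _ _)
    (fun y => psi_ge_one _ _) (fun y => psi_ge_one _ _)
    (Prod.mk x0 ⁻¹' A) (Prod.mk x1 ⁻¹' B) (Prod.mk (t * x0 + (1 - t) * x1) ⁻¹' C)
    (measurable_prodMk_left hA) (measurable_prodMk_left hB) (measurable_prodMk_left hC)
    (fun y hy z hz => hABC _ hy _ hz) (fun y z => psi_convex t0.le t1.le _ _ _ _)
    _ _ _ hx0 hx1 (secI_nonneg _ _) (secI_ofReal A x0) (secI_ofReal B x1) (secI_ofReal C _)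

end Pool.Agent.H95R3.NormK
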