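import Pool.Agent.H95R3.NormB

/-!
Integrals of even functions with power tails.
-/

set_option autoImplicit false

open MeasureTheory Set
open scoped ENNReal

namespace Pool.Agent.H95R3.NormK

/-- the model function: `c` for `|x| ≤ r`, `|x|^(-a)` for `|x| > r` -/
noncomputable def mod (c r a x : ℝ) : ℝ := if |x| ≤ r then c else |x| ^ (-a)

lemma mod_nonneg {c : ℝ} (hc : 0 ≤ c) (r a x : ℝ) : 0 ≤ mod c r a x := by
  unfold mod
  split_ifs
  · exact hc
  · positivity

lemma mod_meas (c r a : ℝ) : Measurable (mod c r a) := by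
  unfold mod
  refine Measurable.ite ?_ measurable_const ?_
  · exact measurableSet_le (by fun_prop) measurable_const
  · exact (by fun_prop : Measurable fun x : ℝ => |x|).pow_const _

lemma lint_even (f : ℝ → ℝ≥0∞) (hf : Measurable f) :
    ∫⁻ x, f |x| = 2 * ∫⁻ x in Ioi 0, f x := by
  have h1 : ∫⁻ x, f |x| = (∫⁻ x in Iic 0, f |x|) + ∫⁻ x in Ioi 0, f |x| := by
    rw [← lintegral_union measurableSet_Ioi (by
      rw [Set.disjoint_left]
      intro x hx hx'
      exact absurd (show (0:ℝ) < x from hx') (not_lt.2 hx)),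
      Iic_union_Ioi, Measure.restrict_univ]
  have h2 : ∫⁻ x in Ioi 0, f |x| = ∫⁻ x in Ioi 0, f x := by
    refine setLIntegral_congr_fun measurableSet_Ioi fun x hx => ?_
    simp only [abs_of_pos (show (0:ℝ) < x from hx)]
  have h3 : ∫⁻ x in Iic 0, f |x| = ∫⁻ x in Ioi 0, f x := by
    rw [← h2]
    have hmp : MeasurePreserving (fun x : ℝ => -x) volume volume :=
      Measure.measurePreserving_neg volume
    have he : MeasurableEmbedding (fun x : ℝ => -x) := (MeasurableEquiv.neg ℝ).measurableEmbedding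
    have := hmp.setLIntegral_comp_preimage_emb he (fun x => f |x|) (Ici 0)
    have e : (fun x : ℝ => -x) ⁻¹' (Ici 0) = Iic 0 := by ext x; simp
    rw [e] at this
    simp only [abs_neg] at this
    rw [this]
    exact (setLIntegral_congr Ioi_ae_eq_Ici).symm
  rw [h1, h2, h3, two_mul]

lemma lint_mod {c r a : ℝ} (hc : 0 ≤ c) (hr : 0 < r) (ha : 1 < a) :
    ∫⁻ x, ENNReal.ofReal (mod c r a x)
      = ENNReal.ofReal (2 * (c * r + r ^ (1 - a) / (a - 1))) := by
  have h := lint_even (fun x => ENNReal.ofReal (if x ≤ r then c else x ^ (-a)))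
    (by
      refine Measurable.ennreal_ofReal ?_
      exact Measurable.ite (measurableSet_le measurable_id measurable_const) measurable_const
        (measurable_id.pow_const _))
  have e : ∀ x : ℝ, ENNReal.ofReal (mod c r a x)
      = (fun x => ENNReal.ofReal (if x ≤ r then c else x ^ (-a))) |x| := fun x => rfl
  simp_rw [e]
  rw [h]
  have h1 : ∫⁻ x in Ioi (0:ℝ), ENNReal.ofReal (if x ≤ r then c else x ^ (-a))
      = (∫⁻ x in Ioc 0 r, ENNReal.ofReal (if x ≤ r then c else x ^ (-a)))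
        + ∫⁻ x in Ioi r, ENNReal.ofReal (if x ≤ r then c else x ^ (-a)) := by
    rw [← lintegral_union measurableSet_Ioi (by
      rw [Set.disjoint_left]
      intro x hx hx'
      exact absurd (show r < x from hx') (not_lt.2 hx.2)),
      Ioc_union_Ioi_eq_Ioi hr.le]
  have h2 : ∫⁻ x in Ioc 0 r, ENNReal.ofReal (if x ≤ r then c else x ^ (-a))
      = ENNReal.ofReal (c * r) := by
    rw [setLIntegral_congr_fun (g := fun _ => ENNReal.ofReal c) measurableSet_Ioc
      (fun x hx => by simp only [if_pos hx.2])]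
    rw [setLIntegral_const, Real.volume_Ioc, sub_zero, ENNReal.ofReal_mul hc]
  have h3 : ∫⁻ x in Ioi r, ENNReal.ofReal (if x ≤ r then c else x ^ (-a))
      = ENNReal.ofReal (r ^ (1 - a) / (a - 1)) := by
    rw [setLIntegral_congr_fun (g := fun x => ENNReal.ofReal (x ^ (-a))) measurableSet_Ioi
      (fun x hx => by simp only [if_neg (not_le.2 (show r < x from hx))])]
    rw [← ofReal_integral_eq_lintegral_ofReal (integrableOn_Ioi_rpow_of_lt (by linarith) hr)
      ((ae_restrict_mem measurableSet_Ioi).mono fun x hx => by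
        have : 0 < x := lt_trans hr hx
        positivity),
      integral_Ioi_rpow_of_lt (by linarith) hr]
    congr 1
    rw [show -a + 1 = 1 - a by ring, show (1 : ℝ) - a = -(a - 1) by ring]
    rw [div_neg, neg_div, neg_neg]
  rw [h1, h2, h3, ← ENNReal.ofReal_add (by positivity) (by
    have : 0 < a - 1 := by linarith
    positivity)]
  rw [ENNReal.ofReal_mul (by norm_num : (0:ℝ) ≤ 2)]
  simp

/-- integral of `1 / max(M, y²)²` -/
lemma lint_sq (M : ℝ) (hM : 1 ≤ M) :
    ∫⁻ y, ENNReal.ofReal (1 / (max M (y ^ 2)) ^ 2)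
      = ENNReal.ofReal (8 / 3 * M ^ (-(3 / 2) : ℝ)) := by
  have hM0 : 0 < M := by linarith
  have hs : 0 < Real.sqrt M := Real.sqrt_pos.2 hM0
  have e : ∀ y : ℝ, 1 / (max M (y ^ 2)) ^ 2 = mod (1 / M ^ 2) (Real.sqrt M) 4 y := by
    intro y
    unfold mod
    split_ifs with h
    · have : y ^ 2 ≤ M := by
        rw [← sq_abs, ← Real.sq_sqrt hM0.le]
        exact pow_le_pow_left₀ (abs_nonneg _) h 2
      rw [max_eq_left this]
    · push Not at h
      have hy : 0 < |y| := lt_trans hs h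
      have : M ≤ y ^ 2 := by
        rw [← sq_abs, ← Real.sq_sqrt hM0.le]
        exact pow_le_pow_left₀ hs.le h.le 2
      rw [max_eq_right this, Real.rpow_neg hy.le, show (4:ℝ) = ((4:ℕ):ℝ) by norm_num,
        Real.rpow_natCast, one_div, ← sq_abs y]
      congr 1
      ring
  simp_rw [e]
  rw [lint_mod (by positivity) hs (by norm_num)]
  congr 1
  have h1 : Real.sqrt M = M ^ (1 / 2 : ℝ) := Real.sqrt_eq_rpow M
  have h2 : 1 / M ^ 2 * Real.sqrt M = M ^ (-(3 / 2) : ℝ) := by
    rw [h1, one_div, ← Real.rpow_natCast, ← Real.rpow_neg hM0.le, ← Real.rpow_add hM0]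
    norm_num
  have h3 : Real.sqrt M ^ (1 - 4 : ℝ) = M ^ (-(3 / 2) : ℝ) := by
    rw [h1, ← Real.rpow_mul hM0.le]; norm_num
  rw [h2, h3]
  ring

lemma lint_den_y (x : ℝ) : ∫⁻ y, ENNReal.ofReal (den x y)
    = ENNReal.ofReal (8 / 3 * (max 1 |x|) ^ (-(3 / 2) : ℝ)) := by
  rw [← lint_sq (max 1 |x|) (le_max_left _ _)]
  refine lintegral_congr fun y => ?_
  unfold den psi
  rw [max_assoc]

lemma lint_lin (K : ℝ) (hK : 1 ≤ K) :
    ∫⁻ x, ENNReal.ofReal (1 / (max K |x|) ^ 2) = ENNReal.ofReal (4 / K) := by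
  have hK0 : 0 < K := by linarith
  have e : ∀ x : ℝ, 1 / (max K |x|) ^ 2 = mod (1 / K ^ 2) K 2 x := by
    intro x
    unfold mod
    split_ifs with h
    · rw [max_eq_left h]
    · push Not at h
      have hx : 0 < |x| := lt_trans hK0 h
      rw [max_eq_right h.le, Real.rpow_neg hx.le, show (2:ℝ) = ((2:ℕ):ℝ) by norm_num,
        Real.rpow_natCast, one_div]
  simp_rw [e]
  rw [lint_mod (by positivity) hK0 (by norm_num)]
  congr 1
  rw [show (1 - 2 : ℝ) = -1 by norm_num, Real.rpow_neg_one]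
  field_simp
  norm_num

lemma lint_den_x (y : ℝ) : ∫⁻ x, ENNReal.ofReal (den x y)
    = ENNReal.ofReal (4 / max 1 (y ^ 2)) := by
  rw [← lint_lin (max 1 (y ^ 2)) (le_max_left _ _)]
  refine lintegral_congr fun x => ?_
  unfold den psi
  rw [max_assoc, max_comm (y ^ 2) |x|]

/-- upper bound for the first moment of `1 / max(M, y²)²` -/
lemma lint_abs_sq (M : ℝ) (hM : 1 ≤ M) :
    ∫⁻ y, ENNReal.ofReal (|y| / (max M (y ^ 2)) ^ 2) ≤ ENNReal.ofReal (3 / M) := by
  have hM0 : 0 < M := by linarith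
  have hs : 0 < Real.sqrt M := Real.sqrt_pos.2 hM0
  have e : ∀ y : ℝ, |y| / (max M (y ^ 2)) ^ 2 ≤ mod (Real.sqrt M / M ^ 2) (Real.sqrt M) 3 y := by
    intro y
    unfold mod
    split_ifs with h
    · have : y ^ 2 ≤ M := by
        rw [← sq_abs, ← Real.sq_sqrt hM0.le]
        exact pow_le_pow_left₀ (abs_nonneg _) h 2
      rw [max_eq_left this]
      gcongr
    · push Not at h
      have hy : 0 < |y| := lt_trans hs h
      have : M ≤ y ^ 2 := by
        rw [← sq_abs, ← Real.sq_sqrt hM0.le]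
        exact pow_le_pow_left₀ hs.le h.le 2
      rw [max_eq_right this, Real.rpow_neg hy.le, show (3:ℝ) = ((3:ℕ):ℝ) by norm_num,
        Real.rpow_natCast, ← sq_abs y]
      apply le_of_eq
      field_simp
  calc ∫⁻ y, ENNReal.ofReal (|y| / (max M (y ^ 2)) ^ 2)
      ≤ ∫⁻ y, ENNReal.ofReal (mod (Real.sqrt M / M ^ 2) (Real.sqrt M) 3 y) :=
        lintegral_mono fun y => ENNReal.ofReal_le_ofReal (e y)
    _ = ENNReal.ofReal (3 / M) := by
        rw [lint_mod (by positivity) hs (by norm_num)]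
        congr 1
        have h1 : Real.sqrt M * Real.sqrt M = M := Real.mul_self_sqrt hM0.le
        rw [show (1 - 3 : ℝ) = -((2:ℕ):ℝ) by norm_num, Real.rpow_neg hs.le, Real.rpow_natCast,
          Real.sq_sqrt hM0.le]
        have h2 : Real.sqrt M / M ^ 2 * Real.sqrt M = 1 / M := by
          rw [div_mul_eq_mul_div, h1]
          field_simp
        rw [h2]
        field_simp
        norm_num

/-- total mass -/
lemma nu_univ : nu univ = 16 := by
  rw [nu_apply _ MeasurableSet.univ]
  simp only [preimage_univ, indicator_univ]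
  simp_rw [lint_den_y]
  have e : ∀ x : ℝ, 8 / 3 * (max 1 |x|) ^ (-(3 / 2) : ℝ) = 8 / 3 * mod 1 1 (3 / 2) x := by
    intro x
    unfold mod
    split_ifs with h
    · rw [max_eq_left h, Real.one_rpow]
    · push Not at h
      rw [max_eq_right h.le]
  simp_rw [e]
  have e2 : ∀ x : ℝ, ENNReal.ofReal (8 / 3 * mod 1 1 (3 / 2) x)
      = ENNReal.ofReal (8 / 3) * ENNReal.ofReal (mod 1 1 (3 / 2) x) := fun x =>
    ENNReal.ofReal_mul (by norm_num)
  simp_rw [e2]
  rw [lintegral_const_mul _ (mod_meas _ _ _).ennreal_ofReal,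
    lint_mod (by norm_num) (by norm_num) (by norm_num), ← ENNReal.ofReal_mul (by norm_num)]
  rw [Real.one_rpow]
  norm_num

end Pool.Agent.H95R3.NormK
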