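import Pool.Agent.H95R3.NormC

/-!
Marginal densities of the planar measure and the main comparison.
-/

set_option autoImplicit false

open MeasureTheory Set
open scoped ENNReal

namespace Pool.Agent.H95R3.NormK

/-- the planar probability measure -/
noncomputable def nu16 : Measure (ℝ × ℝ) :=
  (volume : Measure (ℝ × ℝ)).withDensity (fun p => ENNReal.ofReal (den p.1 p.2 / 16))

lemma nu16_eq : nu16 = ENNReal.ofReal (1 / 16) • nu := by
  unfold nu16 nu
  rw [← withDensity_smul _ den_cont.measurable.ennreal_ofReal]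
  congr 1
  ext p
  rw [Pi.smul_apply, smul_eq_mul, ← ENNReal.ofReal_mul (by norm_num)]
  congr 1; ring

instance : IsProbabilityMeasure nu16 := by
  constructor
  rw [nu16_eq, Measure.smul_apply, nu_univ, smul_eq_mul]
  rw [show (16 : ℝ≥0∞) = ENNReal.ofReal 16 by simp, ← ENNReal.ofReal_mul (by norm_num)]
  norm_num

/-- the density of `x + b y` -/
noncomputable def gb (b z : ℝ) : ℝ≥0∞ := ∫⁻ y, ENNReal.ofReal (den (z - b * y) y / 16)

lemma gb_meas (b : ℝ) : Measurable (gb b) := by
  have h : Measurable (fun p : ℝ × ℝ => ENNReal.ofReal (den (p.1 - b * p.2) p.2 / 16)) := by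
    refine Measurable.ennreal_ofReal ?_
    exact ((den_cont.comp (by fun_prop : Continuous fun p : ℝ × ℝ =>
      (p.1 - b * p.2, p.2))).div_const 16).measurable
  exact h.lintegral_prod_right'

lemma law_b (b : ℝ) : nu16.map (fun p : ℝ × ℝ => 1 * p.1 + b * p.2)
    = volume.withDensity (gb b) := by
  ext S hS
  have hm : Measurable (fun p : ℝ × ℝ => 1 * p.1 + b * p.2) := by fun_prop
  rw [Measure.map_apply hm hS, withDensity_apply _ hS]
  unfold nu16
  rw [withDensity_apply _ (hm hS), ← lintegral_indicator (hm hS), Measure.volume_eq_prod,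
    lintegral_prod_symm]
  swap
  · exact ((den_cont.div_const 16).measurable.ennreal_ofReal.indicator (hm hS)).aemeasurable
  have h1 : ∀ y : ℝ, ∫⁻ x : ℝ, ((fun p : ℝ × ℝ => 1 * p.1 + b * p.2) ⁻¹' S).indicator
      (fun p : ℝ × ℝ => ENNReal.ofReal (den p.1 p.2 / 16)) (x, y)
      = ∫⁻ z : ℝ, S.indicator (fun z => ENNReal.ofReal (den (z - b * y) y / 16)) z := by
    intro y
    rw [← lintegral_add_right_eq_self (fun z : ℝ => S.indicator
      (fun z => ENNReal.ofReal (den (z - b * y) y / 16)) z) (b * y)]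
    refine lintegral_congr fun x => ?_
    by_cases h : x + b * y ∈ S
    · rw [indicator_of_mem h, indicator_of_mem (by simpa using h)]
      simp
    · rw [indicator_of_notMem h, indicator_of_notMem (by simpa using h)]
  simp_rw [h1]
  rw [lintegral_lintegral_swap]
  · rw [← lintegral_indicator hS]
    refine lintegral_congr fun z => ?_
    by_cases h : z ∈ S
    · simp only [indicator_of_mem h, gb]
    · simp only [indicator_of_notMem h, lintegral_zero]
  · have h : Measurable (fun p : ℝ × ℝ => ENNReal.ofReal (den (p.2 - b * p.1) p.1 / 16)) := by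
      refine Measurable.ennreal_ofReal ?_
      exact ((den_cont.comp (by fun_prop : Continuous fun p : ℝ × ℝ =>
        (p.2 - b * p.1, p.1))).div_const 16).measurable
    have h2 := h.indicator (measurable_snd hS)
    refine Measurable.aemeasurable ?_
    convert! h2 using 1

/-- the density of `y` -/
noncomputable def gy (y : ℝ) : ℝ≥0∞ := ENNReal.ofReal (1 / 4 / max 1 (y ^ 2))

lemma gy_meas : Measurable gy := by
  unfold gy
  refine Measurable.ennreal_ofReal ?_
  exact measurable_const.div (by fun_prop)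

lemma law_y : nu16.map (fun p : ℝ × ℝ => 0 * p.1 + 1 * p.2) = volume.withDensity gy := by
  ext S hS
  have hm : Measurable (fun p : ℝ × ℝ => 0 * p.1 + 1 * p.2) := by fun_prop
  rw [Measure.map_apply hm hS, withDensity_apply _ hS]
  unfold nu16
  rw [withDensity_apply _ (hm hS), ← lintegral_indicator (hm hS), Measure.volume_eq_prod,
    lintegral_prod_symm]
  swap
  · exact ((den_cont.div_const 16).measurable.ennreal_ofReal.indicator (hm hS)).aemeasurable
  rw [← lintegral_indicator hS]
  refine lintegral_congr fun y => ?_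
  by_cases h : y ∈ S
  · rw [indicator_of_mem h]
    have h1 : ∀ x : ℝ, ((fun p : ℝ × ℝ => 0 * p.1 + 1 * p.2) ⁻¹' S).indicator
      (fun p : ℝ × ℝ => ENNReal.ofReal (den p.1 p.2 / 16)) (x, y)
        = ENNReal.ofReal (1 / 16) * ENNReal.ofReal (den x y) := by
      intro x
      rw [indicator_of_mem (by simpa using h), ← ENNReal.ofReal_mul (by norm_num)]
      congr 1; ring
    simp_rw [h1]
    rw [lintegral_const_mul, lint_den_x, ← ENNReal.ofReal_mul (by norm_num)]
    · unfold gy
      congr 1
      ring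
    · exact (den_cont.comp (by fun_prop : Continuous fun x : ℝ =>
        (x, y))).measurable.ennreal_ofReal
  · rw [indicator_of_notMem h]
    have h1 : ∀ x : ℝ, ((fun p : ℝ × ℝ => 0 * p.1 + 1 * p.2) ⁻¹' S).indicator
      (fun p : ℝ × ℝ => ENNReal.ofReal (den p.1 p.2 / 16)) (x, y) = 0 := by
      intro x
      rw [indicator_of_notMem (by simpa using h)]
    simp_rw [h1]
    simp

/-- real form of the density of `x` -/
noncomputable def GX (z : ℝ) : ℝ := 1 / 6 * (max 1 |z|) ^ (-(3 / 2) : ℝ)

lemma GX_pos (z : ℝ) : 0 < GX z := by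
  unfold GX
  have : 0 < max 1 |z| := lt_of_lt_of_le one_pos (le_max_left _ _)
  positivity

lemma gb_zero (z : ℝ) : gb 0 z = ENNReal.ofReal (GX z) := by
  unfold gb GX
  simp only [zero_mul, sub_zero]
  have h1 : ∀ y : ℝ, ENNReal.ofReal (den z y / 16)
      = ENNReal.ofReal (1 / 16) * ENNReal.ofReal (den z y) := by
    intro y
    rw [← ENNReal.ofReal_mul (by norm_num)]
    congr 1; ring
  simp_rw [h1]
  rw [lintegral_const_mul, lint_den_y, ← ENNReal.ofReal_mul (by norm_num)]
  · congr 1
    ring
  · exact (den_cont.comp (by fun_prop : Continuous fun y : ℝ =>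
      (z, y))).measurable.ennreal_ofReal

/-- lower bound of the density of `x + b y` near the origin -/
lemma gb_lower_near (b z : ℝ) (hb : 0 < b) (hz : |z| ≤ b - 1) :
    ENNReal.ofReal (1 / (8 * b)) ≤ gb b z := by
  unfold gb
  have h1 : ∫⁻ y in Icc ((z - 1) / b) ((z + 1) / b), ENNReal.ofReal (1 / 16)
      ≤ ∫⁻ y, ENNReal.ofReal (den (z - b * y) y / 16) := by
    refine le_trans ?_ (setLIntegral_le_lintegral (Icc ((z - 1) / b) ((z + 1) / b)) _)
    refine setLIntegral_mono' measurableSet_Icc fun y hy => ?_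
    refine ENNReal.ofReal_le_ofReal ?_
    have hy1 : z - 1 ≤ y * b := (div_le_iff₀ hb).1 hy.1
    have hy2 : y * b ≤ z + 1 := (le_div_iff₀ hb).1 hy.2
    have hz' := abs_le.1 hz
    have hy3 : |y| ≤ 1 := by
      rw [abs_le]
      constructor
      · by_contra hc
        push Not at hc
        nlinarith
      · by_contra hc
        push Not at hc
        nlinarith
    have h3 : psi (z - b * y) y = 1 := by
      unfold psi
      rw [max_eq_left]
      refine max_le ?_ ?_
      · rw [abs_le]; constructor <;> linarith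
      · rw [← sq_abs]
        exact pow_le_one₀ (abs_nonneg _) hy3
    unfold den
    rw [h3]
    norm_num
  rw [setLIntegral_const, Real.volume_Icc, ← ENNReal.ofReal_mul (by norm_num)] at h1
  refine le_trans (le_of_eq ?_) h1
  congr 1
  field_simp
  ring

/-- lower bound of the density of `x + b y` far away -/
lemma gb_lower_far (b z : ℝ) (hb : 0 < b) (hz : 1 ≤ |z|) :
    ENNReal.ofReal (GX z) ≤ gb b z + ENNReal.ofReal (3 * b / 8 * |z| ^ (-2 : ℝ)) := by
  have hz0 : 0 < |z| := by linarith
  have hpt : ∀ y : ℝ, ENNReal.ofReal (den z y / 16) ≤ ENNReal.ofReal (den (z - b * y) y / 16)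
      + ENNReal.ofReal (b / (8 * |z|)) * ENNReal.ofReal (|y| / (max |z| (y ^ 2)) ^ 2) := by
    intro y
    have hy := abs_nonneg y
    rw [← ENNReal.ofReal_mul (by positivity), ← ENNReal.ofReal_add
      (by have := den_pos (z - b * y) y; positivity) (by positivity)]
    refine ENNReal.ofReal_le_ofReal ?_
    set W := max |z| (y ^ 2) with hW
    have hWz : |z| ≤ W := le_max_left _ _
    have hWy : y ^ 2 ≤ W := le_max_right _ _
    have hW0 : 0 < W := lt_of_lt_of_le hz0 hWz
    have e1 : psi z y = W := by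
      unfold psi
      rw [max_eq_right]
      exact hz.trans hWz
    set ε := b * |y| / |z| with hε
    have hε0 : 0 ≤ ε := by positivity
    have e2 : psi (z - b * y) y ≤ (1 + ε) * W := by
      unfold psi
      refine max_le ?_ (max_le ?_ ?_)
      · nlinarith
      · calc |z - b * y| ≤ |z| + |b * y| := abs_sub _ _
          _ = |z| + ε * |z| := by rw [abs_mul, abs_of_pos hb, hε]; field_simp
          _ = (1 + ε) * |z| := by ring
          _ ≤ _ := by gcongr
      · nlinarith
    have e3 : (1 - 2 * ε) * (1 / W ^ 2) ≤ den (z - b * y) y := by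
      have h0 := psi_pos (z - b * y) y
      have h4 : 1 / ((1 + ε) * W) ^ 2 ≤ den (z - b * y) y := by
        unfold den
        exact one_div_le_one_div_of_le (by positivity) (pow_le_pow_left₀ h0.le e2 2)
      refine le_trans ?_ h4
      rw [mul_one_div, div_le_div_iff₀ (by positivity) (by positivity), one_mul, mul_pow]
      have : (1 - 2 * ε) * (1 + ε) ^ 2 ≤ 1 := by nlinarith [sq_nonneg ε, mul_nonneg hε0 (sq_nonneg ε)]
      calc (1 - 2 * ε) * ((1 + ε) ^ 2 * W ^ 2) = ((1 - 2 * ε) * (1 + ε) ^ 2) * W ^ 2 := by ring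
        _ ≤ 1 * W ^ 2 := by gcongr
        _ = _ := one_mul _
    have e4 : den z y = 1 / W ^ 2 := by unfold den; rw [e1]
    have e5 : b / (8 * |z|) * (|y| / W ^ 2) = 2 * ε * (1 / W ^ 2) / 16 := by
      rw [hε]; field_simp; ring
    rw [e4, e5]
    linarith
  have hmeas : Measurable (fun y : ℝ => ENNReal.ofReal (|y| / (max |z| (y ^ 2)) ^ 2)) := by
    refine Measurable.ennreal_ofReal ?_
    exact (by fun_prop : Measurable fun y : ℝ => |y|).div (by fun_prop)
  rw [← gb_zero]
  calc gb 0 z = ∫⁻ y, ENNReal.ofReal (den z y / 16) := by unfold gb; simp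
    _ ≤ ∫⁻ y, (ENNReal.ofReal (den (z - b * y) y / 16)
      + ENNReal.ofReal (b / (8 * |z|)) * ENNReal.ofReal (|y| / (max |z| (y ^ 2)) ^ 2)) :=
        lintegral_mono hpt
    _ = gb b z + ENNReal.ofReal (b / (8 * |z|))
        * ∫⁻ y, ENNReal.ofReal (|y| / (max |z| (y ^ 2)) ^ 2) := by
        rw [lintegral_add_right _ (hmeas.const_mul _), lintegral_const_mul _ hmeas]
        rfl
    _ ≤ gb b z + ENNReal.ofReal (b / (8 * |z|)) * ENNReal.ofReal (3 / |z|) := by
        gcongr
        exact lint_abs_sq |z| hz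
    _ = _ := by
        rw [← ENNReal.ofReal_mul (by positivity)]
        congr 2
        rw [show (-2 : ℝ) = -((2:ℕ):ℝ) by norm_num, Real.rpow_neg hz0.le, Real.rpow_natCast]
        field_simp

end Pool.Agent.H95R3.NormK
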