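import Pool.Agent.H95R3.NormD

/-!
The integrals of the `p`-th powers of the marginal densities, `p = 2/3 + 2^(-26)`.
-/

set_option autoImplicit false

open MeasureTheory Set
open scoped ENNReal

namespace Pool.Agent.H95R3.NormK

/-- the exponent `p` -/
noncomputable def p0 : ℝ := 2 / 3 + 1 / 2 ^ 26

lemma p0_gt : 2 / 3 < p0 := by unfold p0; norm_num
lemma p0_lt : p0 < 3 / 4 := by unfold p0; norm_num
lemma p0_pos : 0 < p0 := by unfold p0; norm_num

/-- the large parameter -/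
noncomputable def bb : ℝ := 2 ^ 37

lemma pow_le_mod_T (w : ℝ) (hw : 1 < w) (hT : w ≤ 2 ^ 78) :
    w ^ (-1 : ℝ) ≤ 2 * w ^ (-(79 / 78) : ℝ) := by
  have hw0 : 0 < w := by linarith
  have h1 : w ^ (1 / 78 : ℝ) ≤ 2 := by
    calc w ^ (1 / 78 : ℝ) ≤ ((2 : ℝ) ^ 78) ^ (1 / 78 : ℝ) :=
          Real.rpow_le_rpow hw0.le hT (by norm_num)
      _ = 2 := by
          rw [← Real.rpow_natCast, ← Real.rpow_mul (by norm_num)]
          norm_num
  have h2 : w ^ (-1 : ℝ) = w ^ (1 / 78 : ℝ) * w ^ (-(79 / 78) : ℝ) := by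
    rw [← Real.rpow_add hw0]; norm_num
  rw [h2]
  have := Real.rpow_nonneg hw0.le (-(79 / 78) : ℝ)
  gcongr

lemma sixth : (1 / 6 : ℝ) ^ (2 / 3 : ℝ) ≤ 1 / 3 := by
  have h : (1 / 6 : ℝ) ^ (2 / 3 : ℝ) = ((1 / 36 : ℝ)) ^ (1 / 3 : ℝ) := by
    rw [show (1 / 36 : ℝ) = (1 / 6) ^ (2 : ℝ) by norm_num, ← Real.rpow_mul (by norm_num)]
    norm_num
  rw [h]
  calc (1 / 36 : ℝ) ^ (1 / 3 : ℝ) ≤ ((1 / 3 : ℝ) ^ (3 : ℝ)) ^ (1 / 3 : ℝ) :=
        Real.rpow_le_rpow (by norm_num) (by norm_num) (by norm_num)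
    _ = 1 / 3 := by rw [← Real.rpow_mul (by norm_num)]; norm_num

/-- `GX^p ≤ (1/3) / max(1,|z|)` -/
lemma GX_pow_le (z : ℝ) : GX z ^ p0 ≤ 1 / 3 * (max 1 |z|) ^ (-1 : ℝ) := by
  set w := max 1 |z| with hw
  have hw1 : 1 ≤ w := le_max_left _ _
  have hw0 : 0 < w := by linarith
  have hG1 : GX z ≤ 1 := by
    unfold GX
    have : (max 1 |z|) ^ (-(3 / 2) : ℝ) ≤ 1 := Real.rpow_le_one_of_one_le_of_nonpos hw1 (by norm_num)
    linarith
  calc GX z ^ p0 ≤ GX z ^ (2 / 3 : ℝ) :=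
        Real.rpow_le_rpow_of_exponent_ge (GX_pos z) hG1 p0_gt.le
    _ = (1 / 6 : ℝ) ^ (2 / 3 : ℝ) * w ^ (-1 : ℝ) := by
        unfold GX
        rw [Real.mul_rpow (by norm_num) (by positivity), ← Real.rpow_mul hw0.le]
        norm_num
    _ ≤ 1 / 3 * w ^ (-1 : ℝ) := by
        have := Real.rpow_nonneg hw0.le (-1 : ℝ)
        gcongr
        exact sixth

/-- the loss function -/
noncomputable def L0 (z : ℝ) : ℝ :=
  2 / 3 * mod 1 1 (79 / 78) z + 3 / 4 * bb * mod 0 (2 ^ 78) (3 / 2) z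

/-- the gain function -/
noncomputable def K0 (z : ℝ) : ℝ≥0∞ :=
  (Icc (-(bb - 1)) (bb - 1)).indicator (fun _ => ENNReal.ofReal ((1 / (8 * bb)) ^ p0)) z

lemma L0_nonneg (z : ℝ) : 0 ≤ L0 z := by
  unfold L0
  have h1 := mod_nonneg zero_le_one 1 (79 / 78) z
  have h2 := mod_nonneg (le_refl (0:ℝ)) (2 ^ 78) (3 / 2) z
  have : 0 < bb := by unfold bb; positivity
  positivity

lemma GX_pow_le_near (z : ℝ) (hz : |z| ≤ 2 ^ 78) : GX z ^ p0 ≤ L0 z := by
  have h := GX_pow_le z
  have h2 : L0 z = 2 / 3 * mod 1 1 (79 / 78) z := by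
    unfold L0
    have : mod 0 (2 ^ 78) (3 / 2) z = 0 := by unfold mod; rw [if_pos hz]
    rw [this]; ring
  rw [h2]
  refine h.trans ?_
  unfold mod
  split_ifs with h1
  · rw [max_eq_left h1, Real.one_rpow]; norm_num
  · push Not at h1
    rw [max_eq_right h1.le]
    have := pow_le_mod_T |z| h1 hz
    linarith

lemma bb_pos : 0 < bb := by unfold bb; positivity

/-- pointwise comparison -/
lemma pointwise (z : ℝ) :
    gb 0 z ^ p0 + K0 z ≤ gb bb z ^ p0 + ENNReal.ofReal (L0 z) := by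
  have hG : gb 0 z ^ p0 = ENNReal.ofReal (GX z ^ p0) := by
    rw [gb_zero, ENNReal.ofReal_rpow_of_pos (GX_pos z)]
  rw [hG]
  rcases le_or_gt |z| (2 ^ 78) with hz | hz
  · -- near
    rw [add_comm]
    refine add_le_add ?_ (ENNReal.ofReal_le_ofReal (GX_pow_le_near z hz))
    unfold K0
    by_cases hmem : z ∈ Icc (-(bb - 1)) (bb - 1)
    · rw [indicator_of_mem hmem]
      have := gb_lower_near bb z bb_pos (abs_le.2 hmem)
      rw [← ENNReal.ofReal_rpow_of_pos (by have := bb_pos; positivity)]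
      exact ENNReal.rpow_le_rpow this p0_pos.le
    · rw [indicator_of_notMem hmem]
      exact bot_le
  · -- far
    have hK : K0 z = 0 := by
      unfold K0
      rw [indicator_of_notMem]
      intro hmem
      have h1 := abs_le.2 hmem
      have : bb - 1 ≤ 2 ^ 78 := by unfold bb; norm_num
      linarith
    rw [hK, add_zero]
    have hz1 : 1 < |z| := lt_trans (by norm_num) hz
    have hz0 : 0 < |z| := by linarith
    have hfar := gb_lower_far bb z bb_pos hz1.le
    set x := 9 / 4 * bb * |z| ^ (-(1 / 2) : ℝ) with hx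
    have hx0 : 0 < x := by
      have := bb_pos
      have := Real.rpow_pos_of_pos hz0 (-(1 / 2) : ℝ)
      positivity
    have hxG : 3 * bb / 8 * |z| ^ (-2 : ℝ) = x * GX z := by
      unfold GX
      rw [hx, max_eq_right hz1.le]
      have : |z| ^ (-2 : ℝ) = |z| ^ (-(1 / 2) : ℝ) * |z| ^ (-(3 / 2) : ℝ) := by
        rw [← Real.rpow_add hz0]; norm_num
      rw [this]; ring
    have hx1 : x < 1 := by
      have h2 : |z| ^ (-(1 / 2) : ℝ) ≤ (2 ^ 78 : ℝ) ^ (-(1 / 2) : ℝ) :=
        Real.rpow_le_rpow_of_nonpos (by positivity) hz.le (by norm_num)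
      have h3 : (2 ^ 78 : ℝ) ^ (-(1 / 2) : ℝ) = 1 / 2 ^ 39 := by
        rw [← Real.rpow_natCast, ← Real.rpow_mul (by norm_num),
          show (((78:ℕ):ℝ) * (-(1 / 2))) = -((39:ℕ):ℝ) by norm_num, Real.rpow_neg (by norm_num),
          Real.rpow_natCast, one_div]
      rw [h3] at h2
      rw [hx]
      unfold bb
      calc 9 / 4 * 2 ^ 37 * |z| ^ (-(1 / 2) : ℝ) ≤ 9 / 4 * 2 ^ 37 * (1 / 2 ^ 39) := by gcongr
        _ < 1 := by norm_num
    rw [hxG] at hfar
    have hGp := GX_pos z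
    have hlow : ENNReal.ofReal ((1 - x) * GX z) ≤ gb bb z := by
      have e : ENNReal.ofReal (GX z) = ENNReal.ofReal ((1 - x) * GX z)
          + ENNReal.ofReal (x * GX z) := by
        rw [← ENNReal.ofReal_add (mul_nonneg (by linarith) hGp.le) (by positivity)]
        congr 1; ring
      rw [e] at hfar
      exact (ENNReal.add_le_add_iff_right ENNReal.ofReal_ne_top).1 hfar
    have hpow : ENNReal.ofReal ((1 - x) * GX z ^ p0) ≤ gb bb z ^ p0 := by
      refine le_trans ?_ (ENNReal.rpow_le_rpow hlow p0_pos.le)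
      rw [ENNReal.ofReal_rpow_of_pos (mul_pos (by linarith) hGp)]
      refine ENNReal.ofReal_le_ofReal ?_
      rw [Real.mul_rpow (by linarith) hGp.le]
      have h4 : 1 - x ≤ (1 - x) ^ p0 := by
        calc 1 - x = (1 - x) ^ (1:ℝ) := (Real.rpow_one _).symm
          _ ≤ _ := Real.rpow_le_rpow_of_exponent_ge (by linarith) (by linarith)
              (by have := p0_lt; linarith)
      have := Real.rpow_nonneg hGp.le p0
      gcongr
    have hxL : x * GX z ^ p0 ≤ L0 z := by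
      have h5 := GX_pow_le z
      rw [max_eq_right hz1.le] at h5
      have h6 : L0 z ≥ 3 / 4 * bb * |z| ^ (-(3 / 2) : ℝ) := by
        unfold L0
        have h7 : mod 0 (2 ^ 78) (3 / 2) z = |z| ^ (-(3 / 2) : ℝ) := by
          unfold mod; rw [if_neg (not_le.2 hz)]
        have h8 := mod_nonneg zero_le_one 1 (79 / 78) z
        rw [h7]
        linarith
      refine le_trans ?_ h6
      have h9 : |z| ^ (-(3 / 2) : ℝ) = |z| ^ (-(1 / 2) : ℝ) * |z| ^ (-1 : ℝ) := by
        rw [← Real.rpow_add hz0]; norm_num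
      calc x * GX z ^ p0 ≤ x * (1 / 3 * |z| ^ (-1 : ℝ)) := by gcongr
        _ = _ := by rw [h9, hx]; ring
    calc ENNReal.ofReal (GX z ^ p0)
        = ENNReal.ofReal ((1 - x) * GX z ^ p0) + ENNReal.ofReal (x * GX z ^ p0) := by
          have := Real.rpow_nonneg hGp.le p0
          rw [← ENNReal.ofReal_add (mul_nonneg (by linarith) this) (by positivity)]
          congr 1; ring
      _ ≤ _ := add_le_add hpow (ENNReal.ofReal_le_ofReal hxL)

lemma lint_L0 : ∫⁻ z, ENNReal.ofReal (L0 z) ≤ ENNReal.ofReal 107 := by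
  have e : ∀ z, ENNReal.ofReal (L0 z) = ENNReal.ofReal (2 / 3) * ENNReal.ofReal (mod 1 1 (79 / 78) z)
      + ENNReal.ofReal (3 / 4 * bb) * ENNReal.ofReal (mod 0 (2 ^ 78) (3 / 2) z) := by
    intro z
    have h1 := mod_nonneg zero_le_one 1 (79 / 78) z
    have h2 := mod_nonneg (le_refl (0:ℝ)) (2 ^ 78) (3 / 2) z
    have h3 := bb_pos
    rw [← ENNReal.ofReal_mul (by norm_num), ← ENNReal.ofReal_mul (by positivity),
      ← ENNReal.ofReal_add (by positivity) (by positivity)]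
    rfl
  simp_rw [e]
  have h3 := bb_pos
  rw [lintegral_add_left ((mod_meas _ _ _).ennreal_ofReal.const_mul _),
    lintegral_const_mul _ (mod_meas _ _ _).ennreal_ofReal,
    lintegral_const_mul _ (mod_meas _ _ _).ennreal_ofReal,
    lint_mod zero_le_one one_pos (by norm_num), lint_mod le_rfl (by positivity) (by norm_num),
    ← ENNReal.ofReal_mul (by norm_num), ← ENNReal.ofReal_mul (by positivity),
    ← ENNReal.ofReal_add (by positivity) (by positivity)]
  refine ENNReal.ofReal_le_ofReal ?_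
  have h4 : (2 ^ 78 : ℝ) ^ (1 - 3 / 2 : ℝ) = 1 / 2 ^ 39 := by
    rw [← Real.rpow_natCast, ← Real.rpow_mul (by norm_num),
      show (((78:ℕ):ℝ) * (1 - 3 / 2)) = -((39:ℕ):ℝ) by norm_num, Real.rpow_neg (by norm_num),
      Real.rpow_natCast, one_div]
  rw [h4, Real.one_rpow]
  unfold bb
  norm_num

lemma lint_K0 : ENNReal.ofReal 255 ≤ ∫⁻ z, K0 z := by
  unfold K0
  rw [lintegral_indicator measurableSet_Icc, setLIntegral_const, Real.volume_Icc]
  have hb := bb_pos
  rw [← ENNReal.ofReal_mul (by positivity)]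
  refine ENNReal.ofReal_le_ofReal ?_
  have h1 : (1 / 2 ^ 30 : ℝ) ≤ (1 / (8 * bb)) ^ p0 := by
    have h2 : (1 / (8 * bb) : ℝ) = (2:ℝ) ^ (-40 : ℝ) := by
      unfold bb
      rw [show (-40 : ℝ) = -((40:ℕ):ℝ) by norm_num, Real.rpow_neg (by norm_num),
        Real.rpow_natCast]
      norm_num
    calc (1 / 2 ^ 30 : ℝ) = (1 / (8 * bb)) ^ (3 / 4 : ℝ) := by
          rw [h2, ← Real.rpow_mul (by norm_num),
            show (-40 * (3 / 4) : ℝ) = -((30:ℕ):ℝ) by norm_num, Real.rpow_neg (by norm_num),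
            Real.rpow_natCast, one_div]
      _ ≤ _ := Real.rpow_le_rpow_of_exponent_ge (by positivity)
          (by unfold bb; norm_num) p0_lt.le
  calc (255:ℝ) ≤ (1 / 2 ^ 30) * (bb - 1 - -(bb - 1)) := by unfold bb; norm_num
    _ ≤ _ := by
        apply mul_le_mul_of_nonneg_right h1
        unfold bb; norm_num

/-- main comparison: the `p`-integral grows by at least `148` -/
lemma main_comparison :
    (∫⁻ z, gb 0 z ^ p0) + ENNReal.ofReal 148 ≤ ∫⁻ z, gb bb z ^ p0 := by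
  have h1 : ∫⁻ z, (gb 0 z ^ p0 + K0 z) ≤ ∫⁻ z, (gb bb z ^ p0 + ENNReal.ofReal (L0 z)) :=
    lintegral_mono pointwise
  rw [lintegral_add_left ((gb_meas 0).pow_const p0),
    lintegral_add_left ((gb_meas bb).pow_const p0)] at h1
  have h2 : (∫⁻ z, gb 0 z ^ p0) + ENNReal.ofReal 255
      ≤ (∫⁻ z, gb bb z ^ p0) + ENNReal.ofReal 107 :=
    (add_le_add le_rfl lint_K0).trans (h1.trans (add_le_add le_rfl lint_L0))
  have h3 : ENNReal.ofReal 255 = ENNReal.ofReal 148 + ENNReal.ofReal 107 := by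
    rw [← ENNReal.ofReal_add (by norm_num) (by norm_num)]; norm_num
  rw [h3, ← add_assoc] at h2
  exact (ENNReal.add_le_add_iff_right ENNReal.ofReal_ne_top).1 h2

/-- the integral for the first coordinate is huge -/
lemma lint_gX_lower : ENNReal.ofReal (2 ^ 23) ≤ ∫⁻ z, gb 0 z ^ p0 := by
  have h1 : ∀ z, ENNReal.ofReal (1 / 6) * ENNReal.ofReal (mod 1 1 (3 / 2 * p0) z) ≤ gb 0 z ^ p0 := by
    intro z
    rw [gb_zero, ENNReal.ofReal_rpow_of_pos (GX_pos z), ← ENNReal.ofReal_mul (by norm_num)]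
    refine ENNReal.ofReal_le_ofReal ?_
    have hw1 : 1 ≤ max 1 |z| := le_max_left _ _
    have hw0 : 0 < max 1 |z| := by linarith
    have h2 : GX z ^ p0 = (1 / 6) ^ p0 * (max 1 |z|) ^ (-(3 / 2 * p0)) := by
      unfold GX
      rw [Real.mul_rpow (by norm_num) (by positivity), ← Real.rpow_mul hw0.le]
      congr 2
      ring
    have h3 : mod 1 1 (3 / 2 * p0) z = (max 1 |z|) ^ (-(3 / 2 * p0)) := by
      unfold mod
      split_ifs with h
      · rw [max_eq_left h, Real.one_rpow]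
      · push Not at h
        rw [max_eq_right h.le]
    rw [h2, h3]
    have h4 : (1 / 6 : ℝ) ≤ (1 / 6) ^ p0 := by
      calc (1 / 6 : ℝ) = (1 / 6) ^ (1:ℝ) := (Real.rpow_one _).symm
        _ ≤ _ := Real.rpow_le_rpow_of_exponent_ge (by norm_num) (by norm_num)
            (by have := p0_lt; linarith)
    have := Real.rpow_nonneg hw0.le (-(3 / 2 * p0))
    gcongr
  refine le_trans ?_ (lintegral_mono h1)
  rw [lintegral_const_mul _ (mod_meas _ _ _).ennreal_ofReal,
    lint_mod zero_le_one one_pos (by unfold p0; norm_num), ← ENNReal.ofReal_mul (by norm_num)]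
  refine ENNReal.ofReal_le_ofReal ?_
  rw [Real.one_rpow]
  unfold p0
  norm_num

/-- the integral for the second coordinate is at most `8` -/
lemma lint_gy_upper : ∫⁻ z, gy z ^ p0 ≤ ENNReal.ofReal 8 := by
  have h1 : ∀ z, gy z ^ p0 ≤ ENNReal.ofReal (mod 1 1 (4 / 3) z) := by
    intro z
    have hM : 1 ≤ max 1 (z ^ 2) := le_max_left _ _
    have hM0 : 0 < max 1 (z ^ 2) := by linarith
    unfold gy
    rw [ENNReal.ofReal_rpow_of_pos (by positivity)]
    refine ENNReal.ofReal_le_ofReal ?_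
    have h2 : (1 / 4 / max 1 (z ^ 2)) ^ p0 ≤ (1 / max 1 (z ^ 2)) ^ (2 / 3 : ℝ) := by
      calc (1 / 4 / max 1 (z ^ 2)) ^ p0 ≤ (1 / max 1 (z ^ 2)) ^ p0 := by
            apply Real.rpow_le_rpow (by positivity) _ p0_pos.le
            gcongr
            norm_num
        _ ≤ _ := Real.rpow_le_rpow_of_exponent_ge (by positivity)
            (by rw [div_le_one hM0]; exact hM) p0_gt.le
    refine h2.trans (le_of_eq ?_)
    unfold mod
    split_ifs with h
    · rw [max_eq_left]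
      · norm_num
      · rw [← sq_abs]; exact pow_le_one₀ (abs_nonneg _) h
    · push Not at h
      have hz0 : 0 < |z| := by linarith
      rw [max_eq_right, one_div, ← sq_abs, ← Real.rpow_natCast, ← Real.rpow_neg hz0.le,
        ← Real.rpow_mul hz0.le]
      · congr 1; norm_num
      · rw [← sq_abs]; exact one_le_pow₀ h.le
  refine (lintegral_mono h1).trans ?_
  rw [lint_mod zero_le_one one_pos (by norm_num), Real.one_rpow]
  refine ENNReal.ofReal_le_ofReal ?_
  norm_num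

end Pool.Agent.H95R3.NormK
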