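import Pool.Agent.H95R3.NormE

/-!
Finiteness of the integrals for all directions, and the measure on `Fin 2 → ℝ`.
-/

set_option autoImplicit false

open MeasureTheory Set
open scoped ENNReal Pointwise

namespace Pool.Agent.H95R3.NormK

/-- moment exponent -/
noncomputable def s0 : ℝ := 1 / 2 - 1 / 2 ^ 26

lemma s0_pos : 0 < s0 := by unfold s0; norm_num
lemma s0_lt : s0 < 1 / 2 := by unfold s0; norm_num

/-- the weight -/
noncomputable def wt (z : ℝ) : ℝ≥0∞ := ENNReal.ofReal ((max 1 |z|) ^ s0)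

lemma wt_meas : Measurable wt := by
  unfold wt
  exact ((by fun_prop : Measurable fun z : ℝ => max 1 |z|).pow_const _).ennreal_ofReal

lemma mod_eq (a z : ℝ) : mod 1 1 a z = (max 1 |z|) ^ (-a) := by
  unfold mod
  split_ifs with h
  · rw [max_eq_left h, Real.one_rpow]
  · push Not at h
    rw [max_eq_right h.le]

lemma wt_x : ∫⁻ p : ℝ × ℝ, wt p.1 ∂nu16 ≠ ∞ := by
  have h := lintegral_map (μ := nu16) (f := wt) (g := fun p : ℝ × ℝ => 1 * p.1 + 0 * p.2) wt_meas
    (by fun_prop)
  rw [law_b 0, lintegral_withDensity_eq_lintegral_mul _ (gb_meas 0) wt_meas] at h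
  have e : ∫⁻ p : ℝ × ℝ, wt p.1 ∂nu16 = ∫⁻ p : ℝ × ℝ, wt (1 * p.1 + 0 * p.2) ∂nu16 := by
    refine lintegral_congr fun p => ?_
    simp
  rw [e, ← h]
  have hle : ∫⁻ z, (gb 0 * wt) z ≤ ∫⁻ z, ENNReal.ofReal (mod 1 1 (3 / 2 - s0) z) := by
    refine lintegral_mono fun z => ?_
    have hw0 : 0 < max 1 |z| := lt_of_lt_of_le one_pos (le_max_left _ _)
    rw [Pi.mul_apply, gb_zero, wt, ← ENNReal.ofReal_mul (GX_pos z).le, mod_eq]
    refine ENNReal.ofReal_le_ofReal ?_
    unfold GX
    have : (max 1 |z|) ^ (-(3 / 2 - s0)) = (max 1 |z|) ^ (-(3 / 2) : ℝ) * (max 1 |z|) ^ s0 := by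
      rw [← Real.rpow_add hw0]; congr 1; ring
    rw [this]
    have h1 := Real.rpow_pos_of_pos hw0 (-(3 / 2) : ℝ)
    have h2 := Real.rpow_pos_of_pos hw0 s0
    have h3 := mul_pos h1 h2
    nlinarith
  refine ne_top_of_le_ne_top ?_ hle
  rw [lint_mod zero_le_one one_pos (by have := s0_lt; linarith)]
  exact ENNReal.ofReal_ne_top

lemma wt_y : ∫⁻ p : ℝ × ℝ, wt p.2 ∂nu16 ≠ ∞ := by
  have h := lintegral_map (μ := nu16) (f := wt) (g := fun p : ℝ × ℝ => 0 * p.1 + 1 * p.2) wt_meas
    (by fun_prop)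
  rw [law_y, lintegral_withDensity_eq_lintegral_mul _ gy_meas wt_meas] at h
  have e : ∫⁻ p : ℝ × ℝ, wt p.2 ∂nu16 = ∫⁻ p : ℝ × ℝ, wt (0 * p.1 + 1 * p.2) ∂nu16 := by
    refine lintegral_congr fun p => ?_
    simp
  rw [e, ← h]
  have hle : ∫⁻ z, (gy * wt) z ≤ ∫⁻ z, ENNReal.ofReal (mod 1 1 (2 - s0) z) := by
    refine lintegral_mono fun z => ?_
    have hw1 : 1 ≤ max 1 |z| := le_max_left _ _
    have hw0 : 0 < max 1 |z| := by linarith
    have hsq : max 1 (z ^ 2) = (max 1 |z|) ^ 2 := by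
      rcases le_total |z| 1 with h | h
      · rw [max_eq_left h, max_eq_left]
        · norm_num
        · rw [← sq_abs]; exact pow_le_one₀ (abs_nonneg _) h
      · rw [max_eq_right h, max_eq_right, sq_abs]
        rw [← sq_abs]; exact one_le_pow₀ h
    rw [Pi.mul_apply, gy, wt, hsq, ← ENNReal.ofReal_mul (by positivity), mod_eq]
    refine ENNReal.ofReal_le_ofReal ?_
    have : (max 1 |z|) ^ (-(2 - s0)) = (1 / (max 1 |z|) ^ 2) * (max 1 |z|) ^ s0 := by
      rw [one_div, ← Real.rpow_natCast, ← Real.rpow_neg hw0.le, ← Real.rpow_add hw0]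
      congr 1; push_cast; ring
    rw [this]
    have h2 := Real.rpow_pos_of_pos hw0 s0
    gcongr
    norm_num
  refine ne_top_of_le_ne_top ?_ hle
  rw [lint_mod zero_le_one one_pos (by have := s0_lt; linarith)]
  exact ENNReal.ofReal_ne_top

lemma wt_comb (a b : ℝ) : ∫⁻ p : ℝ × ℝ, wt (a * p.1 + b * p.2) ∂nu16 ≠ ∞ := by
  set C := (1 + |a| + |b|) ^ s0 with hC
  have hpt : ∀ p : ℝ × ℝ, wt (a * p.1 + b * p.2)
      ≤ ENNReal.ofReal C * (wt p.1 + wt p.2) := by
    rintro ⟨x, y⟩
    simp only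
    set X := max 1 |x| with hX
    set Y := max 1 |y| with hY
    have hX1 : 1 ≤ X := le_max_left _ _
    have hY1 : 1 ≤ Y := le_max_left _ _
    have hXx : |x| ≤ X := le_max_right _ _
    have hYy : |y| ≤ Y := le_max_right _ _
    have ha := abs_nonneg a
    have hb := abs_nonneg b
    have hM : max 1 |a * x + b * y| ≤ (1 + |a| + |b|) * max X Y := by
      have m1 : X ≤ max X Y := le_max_left _ _
      have m2 : Y ≤ max X Y := le_max_right _ _
      refine max_le (by nlinarith) ?_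
      calc |a * x + b * y| ≤ |a * x| + |b * y| := abs_add_le _ _
        _ = |a| * |x| + |b| * |y| := by rw [abs_mul, abs_mul]
        _ ≤ |a| * max X Y + |b| * max X Y := by
            gcongr
            · exact hXx.trans m1
            · exact hYy.trans m2
        _ ≤ _ := by nlinarith
    have h1 : (max 1 |a * x + b * y|) ^ s0 ≤ C * (X ^ s0 + Y ^ s0) := by
      calc (max 1 |a * x + b * y|) ^ s0 ≤ ((1 + |a| + |b|) * max X Y) ^ s0 :=
            Real.rpow_le_rpow (by positivity) hM s0_pos.le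
        _ = C * (max X Y) ^ s0 := Real.mul_rpow (by positivity) (by positivity)
        _ ≤ C * (X ^ s0 + Y ^ s0) := by
            have hX0 : 0 ≤ X ^ s0 := by positivity
            have hY0 : 0 ≤ Y ^ s0 := by positivity
            gcongr
            rcases le_total X Y with h | h
            · rw [max_eq_right h]; linarith
            · rw [max_eq_left h]; linarith
    unfold wt
    rw [← ENNReal.ofReal_add (by positivity) (by positivity),
      ← ENNReal.ofReal_mul (by positivity)]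
    exact ENNReal.ofReal_le_ofReal h1
  refine ne_top_of_le_ne_top ?_ (lintegral_mono hpt)
  have ms : Measurable (fun p : ℝ × ℝ => wt p.1) := wt_meas.comp measurable_fst
  have ms2 : Measurable (fun p : ℝ × ℝ => wt p.2) := wt_meas.comp measurable_snd
  have mss : Measurable (fun p : ℝ × ℝ => wt p.1 + wt p.2) := ms.add ms2
  rw [lintegral_const_mul _ mss, lintegral_add_left ms]
  exact ENNReal.mul_ne_top ENNReal.ofReal_ne_top (ENNReal.add_ne_top.2 ⟨wt_x, wt_y⟩)

lemma wt_one_le (z : ℝ) : 1 ≤ wt z := by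
  unfold wt
  rw [← ENNReal.ofReal_one]
  exact ENNReal.ofReal_le_ofReal (Real.one_le_rpow (le_max_left _ _) s0_pos.le)

lemma wt_ne_top (z : ℝ) : wt z ≠ ∞ := ENNReal.ofReal_ne_top

lemma wt_inv_int : ∫⁻ z, wt z ^ (-(p0 / (1 - p0))) ≠ ∞ := by
  have hq : 0 < 1 - p0 := by have := p0_lt; linarith
  have e : ∀ z, wt z ^ (-(p0 / (1 - p0))) = ENNReal.ofReal (mod 1 1 (s0 * (p0 / (1 - p0))) z) := by
    intro z
    have hw0 : 0 < max 1 |z| := lt_of_lt_of_le one_pos (le_max_left _ _)
    unfold wt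
    rw [ENNReal.ofReal_rpow_of_pos (by positivity), ← Real.rpow_mul hw0.le, mod_eq]
    congr 2
    ring
  simp_rw [e]
  rw [lint_mod zero_le_one one_pos]
  · exact ENNReal.ofReal_ne_top
  · rw [← mul_div_assoc, one_lt_div hq]
    unfold s0 p0
    norm_num

/-- finiteness of the `p`-integral -/
lemma finite_of_law (a b : ℝ) (g : ℝ → ℝ≥0∞) (hg : Measurable g)
    (h : nu16.map (fun p : ℝ × ℝ => a * p.1 + b * p.2) = volume.withDensity g) :
    ∫⁻ z, g z ^ p0 ≠ ∞ := by
  have hq : 0 < 1 - p0 := by have := p0_lt; linarith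
  have h1 := lintegral_map (μ := nu16) (f := wt) (g := fun p : ℝ × ℝ => a * p.1 + b * p.2) wt_meas
    (by fun_prop)
  rw [h, lintegral_withDensity_eq_lintegral_mul _ hg wt_meas] at h1
  have h2 : ∫⁻ z, (g * wt) z ≠ ∞ := by rw [h1]; exact wt_comb a b
  have hH := ENNReal.lintegral_mul_norm_pow_le (μ := volume) (f := g * wt)
    (g := fun z => wt z ^ (-(p0 / (1 - p0)))) (hg.mul wt_meas).aemeasurable
    (wt_meas.pow_const _).aemeasurable p0_pos.le hq.le (by ring)
  have e : ∀ z, (g * wt) z ^ p0 * (wt z ^ (-(p0 / (1 - p0)))) ^ (1 - p0) = g z ^ p0 := by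
    intro z
    rw [Pi.mul_apply, ENNReal.mul_rpow_of_nonneg _ _ p0_pos.le, ← ENNReal.rpow_mul,
      show -(p0 / (1 - p0)) * (1 - p0) = -p0 by field_simp, ENNReal.rpow_neg, mul_assoc,
      ENNReal.mul_inv_cancel, mul_one]
    · exact (ENNReal.rpow_pos (lt_of_lt_of_le one_pos (wt_one_le z)) (wt_ne_top z)).ne'
    · exact ENNReal.rpow_ne_top_of_nonneg p0_pos.le (wt_ne_top z)
  simp_rw [e] at hH
  refine ne_top_of_le_ne_top ?_ hH
  exact ENNReal.mul_ne_top (ENNReal.rpow_ne_top_of_nonneg p0_pos.le h2)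
    (ENNReal.rpow_ne_top_of_nonneg hq.le wt_inv_int)

lemma pos_of_law (a b : ℝ) (g : ℝ → ℝ≥0∞) (hg : Measurable g)
    (h : nu16.map (fun p : ℝ × ℝ => a * p.1 + b * p.2) = volume.withDensity g) :
    0 < ∫⁻ z, g z ^ p0 := by
  rw [pos_iff_ne_zero]
  intro h0
  rw [lintegral_eq_zero_iff (hg.pow_const _)] at h0
  have h1 : g =ᵐ[volume] 0 := by
    filter_upwards [h0] with z hz
    simp only [Pi.zero_apply] at hz ⊢
    rcases ENNReal.rpow_eq_zero_iff.1 hz with h | h
    · exact h.1
    · exact absurd h.2 (not_lt.2 p0_pos.le)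
  rw [withDensity_congr_ae h1, withDensity_zero] at h
  have hp : IsProbabilityMeasure (nu16.map (fun p : ℝ × ℝ => a * p.1 + b * p.2)) :=
    Measure.isProbabilityMeasure_map (by fun_prop)
  rw [h] at hp
  have := hp.measure_univ
  rw [Measure.coe_zero, Pi.zero_apply] at this
  exact zero_ne_one this

/-- the measure on `Fin 2 → ℝ` -/
noncomputable def FF (p : ℝ × ℝ) : Fin 2 → ℝ := MeasurableEquiv.finTwoArrow.symm p

lemma FF_apply (p : ℝ × ℝ) : FF p = ![p.1, p.2] := rfl

lemma FF_meas : Measurable FF := MeasurableEquiv.finTwoArrow.symm.measurable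

noncomputable def mu : Measure (Fin 2 → ℝ) := nu16.map FF

instance : IsProbabilityMeasure mu := Measure.isProbabilityMeasure_map FF_meas.aemeasurable

lemma mu_ac : mu ≪ volume := by
  have h1 : nu16 ≪ (volume : Measure (ℝ × ℝ)) := withDensity_absolutelyContinuous _ _
  have h2 := h1.map FF_meas
  have h3 : (volume : Measure (ℝ × ℝ)).map FF = volume :=
    ((volume_preserving_finTwoArrow ℝ).symm _).map_eq
  rw [h3] at h2
  exact h2

lemma mu_apply (S : Set (Fin 2 → ℝ)) (hS : MeasurableSet S) :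
    mu S = ENNReal.ofReal (1 / 16) * nu (FF ⁻¹' S) := by
  unfold mu
  rw [Measure.map_apply FF_meas hS, nu16_eq, Measure.smul_apply, smul_eq_mul]

lemma mu_symm : mu.map (fun x => -x) = mu := by
  unfold mu
  rw [Measure.map_map (by fun_prop) FF_meas]
  have e : (fun x : Fin 2 → ℝ => -x) ∘ FF = FF ∘ (fun p : ℝ × ℝ => -p) := by
    ext p i
    simp only [Function.comp_apply, FF_apply]
    fin_cases i <;> simp
  rw [e, ← Measure.map_map FF_meas (by fun_prop)]
  congr 1
  unfold nu16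
  ext S hS
  have hneg : MeasurePreserving (fun p : ℝ × ℝ => -p) volume volume :=
    Measure.measurePreserving_neg volume
  rw [Measure.map_apply (by fun_prop) hS, withDensity_apply _ hS,
    withDensity_apply _ ((by fun_prop : Measurable fun p : ℝ × ℝ => -p) hS)]
  have := hneg.setLIntegral_comp_preimage hS
    (f := fun p : ℝ × ℝ => ENNReal.ofReal (den p.1 p.2 / 16))
    (den_cont.div_const 16).measurable.ennreal_ofReal
  rw [← this]
  refine lintegral_congr fun p => ?_
  simp only [Prod.fst_neg, Prod.snd_neg]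
  unfold den
  rw [psi_neg]

lemma mu_min {t : ℝ} (t0 : 0 ≤ t) (t1 : t ≤ 1) (A B : Set (Fin 2 → ℝ)) (hA : MeasurableSet A)
    (hB : MeasurableSet B) (hA' : A.Nonempty) (hB' : B.Nonempty) :
    min (mu A) (mu B) ≤ mu (t • A + (1 - t) • B) := by
  rcases t0.eq_or_lt with h0 | h0
  · rw [← h0, zero_smul_set hA', sub_zero, one_smul, zero_add]
    exact min_le_right _ _
  rcases t1.eq_or_lt with h1 | h1
  · rw [h1, sub_self, zero_smul_set hB', one_smul, add_zero]
    exact min_le_left _ _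
  set C := toMeasurable mu (t • A + (1 - t) • B) with hC
  have hCm : MeasurableSet C := measurableSet_toMeasurable _ _
  have hCsub : t • A + (1 - t) • B ⊆ C := subset_toMeasurable _ _
  rw [← measure_toMeasurable (t • A + (1 - t) • B), ← hC, mu_apply A hA, mu_apply B hB,
    mu_apply C hCm]
  have key := min2D h0 h1 (FF ⁻¹' A) (FF ⁻¹' B) (FF ⁻¹' C) (FF_meas hA) (FF_meas hB)
    (FF_meas hCm) ?_
  · rcases le_total (nu (FF ⁻¹' A)) (nu (FF ⁻¹' B)) with h | h
    · rw [min_eq_left h] at key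
      exact (min_le_left _ _).trans (by gcongr)
    · rw [min_eq_right h] at key
      exact (min_le_right _ _).trans (by gcongr)
  · intro p hp q hq
    apply hCsub
    have e : FF (t * p.1 + (1 - t) * q.1, t * p.2 + (1 - t) * q.2)
        = t • FF p + (1 - t) • FF q := by
      ext i
      simp only [FF_apply]
      fin_cases i <;> simp
    rw [e]
    exact add_mem_add (smul_mem_smul_set hp) (smul_mem_smul_set hq)

/-- the law of a linear functional -/
lemma mu_map (v : Fin 2 → ℝ) : mu.map (fun x => ∑ i, v i * x i)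
    = nu16.map (fun p : ℝ × ℝ => v 0 * p.1 + v 1 * p.2) := by
  unfold mu
  rw [Measure.map_map (by fun_prop) FF_meas]
  congr 1
  ext p
  simp [Fin.sum_univ_two, FF_apply]

lemma law_ac (v : Fin 2 → ℝ) (hv : v ≠ 0) : mu.map (fun x => ∑ i, v i * x i) ≪ volume := by
  have h1 := mu_ac.map (f := fun x : Fin 2 → ℝ => ∑ i, v i * x i) (by fun_prop)
  refine h1.trans ?_
  let L : (Fin 2 → ℝ) →ₗ[ℝ] ℝ := ∑ i, v i • LinearMap.proj i
  have hL : ∀ x, L x = ∑ i, v i * x i := by
    intro x
    simp [L]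
  have hsurj : Function.Surjective L := by
    obtain ⟨i, hi⟩ : ∃ i, v i ≠ 0 := by
      by_contra hcon
      push Not at hcon
      exact hv (funext hcon)
    intro y
    refine ⟨Pi.single i (y / v i), ?_⟩
    rw [hL, Finset.sum_eq_single i]
    · simp; field_simp
    · intro j _ hj
      simp [hj]
    · simp
  obtain ⟨c, _, hc⟩ := L.exists_map_addHaar_eq_smul_addHaar (volume : Measure (Fin 2 → ℝ))
    (volume : Measure ℝ) hsurj
  have e : (fun x : Fin 2 → ℝ => ∑ i, v i * x i) = ⇑L := funext fun x => (hL x).symm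
  rw [e, hc]
  exact Measure.smul_absolutelyContinuous

end Pool.Agent.H95R3.NormK
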